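import Mathlib

set_option autoImplicit false

open Set Filter Topology

namespace Pool.Agent.H12R3

/-- A smooth compactly supported function has bounded value and first two derivatives. -/
theorem exists_bound_C2 (φ : ℝ → ℝ) (h1 : ContDiff ℝ 2 φ) (h2 : HasCompactSupport φ) :
    ∃ C : ℝ, 0 ≤ C ∧ (∀ t, |φ t| ≤ C) ∧ (∀ t, |deriv φ t| ≤ C) ∧
      (∀ t, |deriv (deriv φ) t| ≤ C) := by
  have hc1 : ContDiff ℝ 1 (deriv φ) := by
    have : ContDiff ℝ (1 + 1) φ := by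
      convert h1 using 1
      norm_num
    exact (contDiff_succ_iff_deriv.1 this).2.2
  have hc0 : Continuous (deriv (deriv φ)) := hc1.continuous_deriv le_rfl
  obtain ⟨C0, hC0⟩ := h2.exists_bound_of_continuous h1.continuous
  obtain ⟨C1, hC1⟩ := h2.deriv.exists_bound_of_continuous hc1.continuous
  obtain ⟨C2, hC2⟩ := h2.deriv.deriv.exists_bound_of_continuous hc0
  refine ⟨max C0 (max C1 C2), ?_, ?_, ?_, ?_⟩
  · exact le_trans (le_trans (norm_nonneg _) (hC0 0)) (le_max_left _ _)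
  · intro t
    exact le_trans (hC0 t) (le_max_left _ _)
  · intro t
    exact le_trans (hC1 t) (le_trans (le_max_left _ _) (le_max_right _ _))
  · intro t
    exact le_trans (hC2 t) (le_trans (le_max_right _ _) (le_max_right _ _))

theorem hasDerivAt_of_C2 (φ : ℝ → ℝ) (h1 : ContDiff ℝ 2 φ) (t : ℝ) :
    HasDerivAt φ (deriv φ t) t ∧ HasDerivAt (deriv φ) (deriv (deriv φ) t) t := by
  have hc1 : ContDiff ℝ 1 (deriv φ) := by
    have : ContDiff ℝ (1 + 1) φ := by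
      convert h1 using 1
      norm_num
    exact (contDiff_succ_iff_deriv.1 this).2.2
  exact ⟨(h1.differentiable (by norm_num) t).hasDerivAt,
    (hc1.differentiable (by norm_num) t).hasDerivAt⟩

/-- Scaled version of a `C^2` function. -/
theorem hasDerivAt_scale (φ φ' : ℝ → ℝ) (h : ∀ t, HasDerivAt φ (φ' t) t) (c ρ : ℝ) (t : ℝ) :
    HasDerivAt (fun t => φ ((t - c) / ρ)) (φ' ((t - c) / ρ) / ρ) t := by
  have h1 : HasDerivAt (fun t : ℝ => (t - c) / ρ) (1 / ρ) t :=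
    ((hasDerivAt_id t).sub_const c).div_const ρ
  have := (h ((t - c) / ρ)).comp t h1
  have e : φ' ((t - c) / ρ) / ρ = φ' ((t - c) / ρ) * (1 / ρ) := by ring
  rw [e]
  exact this

theorem three_bound (a b c x y z C : ℝ) (hx : |x| ≤ C) (hy : |y| ≤ C) (hz : |z| ≤ C) :
    |a * x + b * y + c * z| ≤ C * (|a| + |b| + |c|) := by
  have h1 : |a * x| ≤ C * |a| := by
    rw [abs_mul, mul_comm]; exact mul_le_mul_of_nonneg_right hx (abs_nonneg _)
  have h2 : |b * y| ≤ C * |b| := by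
    rw [abs_mul, mul_comm]; exact mul_le_mul_of_nonneg_right hy (abs_nonneg _)
  have h3 : |c * z| ≤ C * |c| := by
    rw [abs_mul, mul_comm]; exact mul_le_mul_of_nonneg_right hz (abs_nonneg _)
  calc |a * x + b * y + c * z| ≤ |a * x| + |b * y| + |c * z| := abs_add_three _ _ _
    _ ≤ C * (|a| + |b| + |c|) := by linarith

/-- Localised quadratics with `C^2` bounds. -/
theorem quad_bump : ∃ C : ℝ, 0 < C ∧ ∀ (c ρ α β γ : ℝ), 0 < ρ → ρ ≤ 1 →
    ∃ w w' w'' : ℝ → ℝ, (∀ t, HasDerivAt w (w' t) t) ∧ (∀ t, HasDerivAt w' (w'' t) t) ∧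
      (∀ t, |w t| ≤ C * (|α| / ρ ^ 2 + |β| / ρ + |γ|)) ∧
      (∀ t, |w' t| ≤ C * (|α| / ρ ^ 2 + |β| / ρ + |γ|)) ∧
      (∀ t, |w'' t| ≤ C * (|α| / ρ ^ 2 + |β| / ρ + |γ|)) ∧
      (∀ t, |t - c| ≤ ρ → w t = α + β * (t - c) + γ * (t - c) ^ 2 / 2) ∧
      (∀ t, 2 * ρ ≤ |t - c| → w t = 0) := by
  let B : ContDiffBump (0 : ℝ) := ⟨1, 2, by norm_num, by norm_num⟩
  let χ : ℝ → ℝ := fun t => B t
  have hχ : ContDiff ℝ 2 χ := B.contDiff
  have hχs : HasCompactSupport χ := B.hasCompactSupport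
  have hχ1 : ∀ t : ℝ, |t| ≤ 1 → χ t = 1 := by
    intro t ht
    apply B.one_of_mem_closedBall
    simpa [Real.dist_eq, B] using ht
  have hχ0 : ∀ t : ℝ, 2 ≤ |t| → χ t = 0 := by
    intro t ht
    apply B.zero_of_le_dist
    simpa [Real.dist_eq, B] using ht
  let χ1 : ℝ → ℝ := fun t => t * χ t
  let χ2 : ℝ → ℝ := fun t => (t ^ 2 / 2) * χ t
  have h1 : ContDiff ℝ 2 χ1 := contDiff_id.mul hχ
  have h2 : ContDiff ℝ 2 χ2 := ((contDiff_id.pow 2).div_const 2).mul hχ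
  have h1s : HasCompactSupport χ1 := hχs.mul_left
  have h2s : HasCompactSupport χ2 := hχs.mul_left
  obtain ⟨C0, hC0, a0, b0, c0⟩ := exists_bound_C2 χ hχ hχs
  obtain ⟨C1, hC1, a1, b1, c1⟩ := exists_bound_C2 χ1 h1 h1s
  obtain ⟨C2, hC2, a2, b2, c2⟩ := exists_bound_C2 χ2 h2 h2s
  let C := C0 + C1 + C2 + 1
  have hCpos : 0 < C := by simp only [C]; linarith
  have l0 : C0 ≤ C := by simp only [C]; linarith
  have l1 : C1 ≤ C := by simp only [C]; linarith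
  have l2 : C2 ≤ C := by simp only [C]; linarith
  refine ⟨C, hCpos, ?_⟩
  intro c ρ α β γ hρ hρ1
  refine ⟨fun t => α * χ ((t - c) / ρ) + (β * ρ) * χ1 ((t - c) / ρ) +
      (γ * ρ ^ 2) * χ2 ((t - c) / ρ),
    fun t => α * (deriv χ ((t - c) / ρ) / ρ) + (β * ρ) * (deriv χ1 ((t - c) / ρ) / ρ) +
      (γ * ρ ^ 2) * (deriv χ2 ((t - c) / ρ) / ρ),
    fun t => α * (deriv (deriv χ) ((t - c) / ρ) / ρ / ρ) +
      (β * ρ) * (deriv (deriv χ1) ((t - c) / ρ) / ρ / ρ) +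
      (γ * ρ ^ 2) * (deriv (deriv χ2) ((t - c) / ρ) / ρ / ρ), ?_, ?_, ?_, ?_, ?_, ?_, ?_⟩
  · intro t
    have e0 := hasDerivAt_scale χ (deriv χ) (fun t => (hasDerivAt_of_C2 χ hχ t).1) c ρ t
    have e1 := hasDerivAt_scale χ1 (deriv χ1) (fun t => (hasDerivAt_of_C2 χ1 h1 t).1) c ρ t
    have e2 := hasDerivAt_scale χ2 (deriv χ2) (fun t => (hasDerivAt_of_C2 χ2 h2 t).1) c ρ t
    exact ((e0.const_mul α).add (e1.const_mul (β * ρ))).add (e2.const_mul (γ * ρ ^ 2))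
  · intro t
    have e0 := (hasDerivAt_scale (deriv χ) (deriv (deriv χ))
      (fun t => (hasDerivAt_of_C2 χ hχ t).2) c ρ t).div_const ρ
    have e1 := (hasDerivAt_scale (deriv χ1) (deriv (deriv χ1))
      (fun t => (hasDerivAt_of_C2 χ1 h1 t).2) c ρ t).div_const ρ
    have e2 := (hasDerivAt_scale (deriv χ2) (deriv (deriv χ2))
      (fun t => (hasDerivAt_of_C2 χ2 h2 t).2) c ρ t).div_const ρ
    exact ((e0.const_mul α).add (e1.const_mul (β * ρ))).add (e2.const_mul (γ * ρ ^ 2))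
  · intro t
    refine le_trans (three_bound α (β * ρ) (γ * ρ ^ 2) _ _ _ C (le_trans (a0 _) l0)
      (le_trans (a1 _) l1) (le_trans (a2 _) l2)) ?_
    apply mul_le_mul_of_nonneg_left _ hCpos.le
    rw [abs_mul, abs_mul, abs_of_pos hρ, abs_of_pos (pow_pos hρ 2)]
    have i1 : |α| ≤ |α| / ρ ^ 2 := by
      rw [le_div_iff₀ (pow_pos hρ 2)]
      have : ρ ^ 2 ≤ 1 := pow_le_one₀ hρ.le hρ1
      nlinarith [abs_nonneg α]
    have i2 : |β| * ρ ≤ |β| / ρ := by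
      rw [le_div_iff₀ hρ]
      have : ρ * ρ ≤ 1 := by nlinarith
      nlinarith [abs_nonneg β]
    have i3 : |γ| * ρ ^ 2 ≤ |γ| := by
      have : ρ ^ 2 ≤ 1 := pow_le_one₀ hρ.le hρ1
      nlinarith [abs_nonneg γ]
    linarith
  · intro t
    have e : α * (deriv χ ((t - c) / ρ) / ρ) + (β * ρ) * (deriv χ1 ((t - c) / ρ) / ρ) +
      (γ * ρ ^ 2) * (deriv χ2 ((t - c) / ρ) / ρ) =
      (α / ρ) * deriv χ ((t - c) / ρ) + β * deriv χ1 ((t - c) / ρ) +
        (γ * ρ) * deriv χ2 ((t - c) / ρ) := by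
      field_simp
    show |α * (deriv χ ((t - c) / ρ) / ρ) + (β * ρ) * (deriv χ1 ((t - c) / ρ) / ρ) +
      (γ * ρ ^ 2) * (deriv χ2 ((t - c) / ρ) / ρ)| ≤ _
    rw [e]
    refine le_trans (three_bound (α / ρ) β (γ * ρ) _ _ _ C (le_trans (b0 _) l0)
      (le_trans (b1 _) l1) (le_trans (b2 _) l2)) ?_
    apply mul_le_mul_of_nonneg_left _ hCpos.le
    rw [abs_mul, abs_div, abs_of_pos hρ]
    have i1 : |α| / ρ ≤ |α| / ρ ^ 2 := by
      apply div_le_div_of_nonneg_left (abs_nonneg _) (pow_pos hρ 2)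
      nlinarith
    have i2 : |β| ≤ |β| / ρ := by
      rw [le_div_iff₀ hρ]
      nlinarith [abs_nonneg β]
    have i3 : |γ| * ρ ≤ |γ| := by
      nlinarith [abs_nonneg γ]
    linarith
  · intro t
    have e : α * (deriv (deriv χ) ((t - c) / ρ) / ρ / ρ) +
      (β * ρ) * (deriv (deriv χ1) ((t - c) / ρ) / ρ / ρ) +
      (γ * ρ ^ 2) * (deriv (deriv χ2) ((t - c) / ρ) / ρ / ρ) =
      (α / ρ ^ 2) * deriv (deriv χ) ((t - c) / ρ) + (β / ρ) * deriv (deriv χ1) ((t - c) / ρ) +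
        γ * deriv (deriv χ2) ((t - c) / ρ) := by
      field_simp
    show |α * (deriv (deriv χ) ((t - c) / ρ) / ρ / ρ) +
      (β * ρ) * (deriv (deriv χ1) ((t - c) / ρ) / ρ / ρ) +
      (γ * ρ ^ 2) * (deriv (deriv χ2) ((t - c) / ρ) / ρ / ρ)| ≤ _
    rw [e]
    refine le_trans (three_bound (α / ρ ^ 2) (β / ρ) γ _ _ _ C (le_trans (c0 _) l0)
      (le_trans (c1 _) l1) (le_trans (c2 _) l2)) ?_
    rw [abs_div, abs_div, abs_of_pos hρ, abs_of_pos (pow_pos hρ 2)]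
  · intro t ht
    have : |(t - c) / ρ| ≤ 1 := by
      rw [abs_div, abs_of_pos hρ, div_le_one hρ]
      exact ht
    simp only [χ1, χ2, hχ1 _ this]
    field_simp
  · intro t ht
    have : 2 ≤ |(t - c) / ρ| := by
      rw [abs_div, abs_of_pos hρ, le_div_iff₀ hρ]
      exact ht
    simp only [χ1, χ2, hχ0 _ this]
    ring

end Pool.Agent.H12R3
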