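import Pool.Agent.H111R5.CP.Stmts

set_option autoImplicit false

open MeasureTheory ProbabilityTheory Filter Finset Topology
open scoped ENNReal

namespace Pool.Agent.H12R3.CPAS

open Pool.Agent.H111R5.CP

/-! ### deterministic part -/

lemma Wr_pos (N : ℕ) (V : ℕ → (Fin 3 → ℤ) → ℝ) (x : Fin 3 → ℤ) : 0 < Wr N V x := by
  induction N generalizing V x with
  | zero => simp [Wr]
  | succ N ih =>
    rw [Wr]
    have : 0 < ∑ e : Fin 3 × Bool, Real.exp (V 1 (x + stp e)) * Wr N (fun n => V (n + 1)) (x + stp e) := by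
      apply Finset.sum_pos
      · intro e _
        exact mul_pos (Real.exp_pos _) (ih _ _)
      · exact ⟨(0, true), Finset.mem_univ _⟩
    positivity

lemma stp_abs (e : Fin 3 × Bool) (i : Fin 3) : |stp e i| ≤ 1 := by
  unfold stp
  by_cases h : i = e.1
  · subst h
    simp only [Pi.single_eq_same]
    split_ifs <;> simp
  · rw [Pi.single_eq_of_ne h]; simp

lemma card_E : (Finset.univ : Finset (Fin 3 × Bool)).card = 6 := by decide

lemma Wr_step (N : ℕ) (A : ℝ) : ∀ (V : ℕ → (Fin 3 → ℤ) → ℝ) (x : Fin 3 → ℤ),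
    (∀ y : Fin 3 → ℤ, (∀ i, |y i - x i| ≤ N + 1) → |V (N + 1) y| ≤ A) →
    Real.exp (-A) * Wr N V x ≤ Wr (N + 1) V x ∧ Wr (N + 1) V x ≤ Real.exp A * Wr N V x := by
  induction N with
  | zero =>
    intro V x h
    have hb : ∀ e : Fin 3 × Bool, |V 1 (x + stp e)| ≤ A := by
      intro e
      have := h (x + stp e) (by intro i; simpa using stp_abs e i)
      simpa using this
    have hW : Wr (0 + 1) V x = (1 / 6) * ∑ e : Fin 3 × Bool, Real.exp (V 1 (x + stp e)) := by
      simp [Wr]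
    rw [hW]
    have h0 : Wr 0 V x = 1 := rfl
    rw [h0]
    constructor
    · have : ∑ e : Fin 3 × Bool, Real.exp (-A) ≤ ∑ e : Fin 3 × Bool, Real.exp (V 1 (x + stp e)) := by
        apply Finset.sum_le_sum
        intro e _
        apply Real.exp_le_exp.2
        have := abs_le.1 (hb e)
        linarith
      rw [Finset.sum_const, card_E] at this
      simp only [nsmul_eq_mul] at this
      push_cast at this
      linarith
    · have : ∑ e : Fin 3 × Bool, Real.exp (V 1 (x + stp e)) ≤ ∑ e : Fin 3 × Bool, Real.exp A := by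
        apply Finset.sum_le_sum
        intro e _
        apply Real.exp_le_exp.2
        have := abs_le.1 (hb e)
        linarith
      rw [Finset.sum_const, card_E] at this
      simp only [nsmul_eq_mul] at this
      push_cast at this
      linarith
  | succ N ih =>
    intro V x h
    have key : ∀ e : Fin 3 × Bool,
        Real.exp (-A) * Wr N (fun n => V (n + 1)) (x + stp e) ≤ Wr (N + 1) (fun n => V (n + 1)) (x + stp e) ∧
        Wr (N + 1) (fun n => V (n + 1)) (x + stp e) ≤ Real.exp A * Wr N (fun n => V (n + 1)) (x + stp e) := by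
      intro e
      apply ih
      intro y hy
      apply h
      intro i
      have h1 := hy i
      have h2 := stp_abs e i
      have h3 : y i - x i = (y i - (x + stp e) i) + stp e i := by simp only [Pi.add_apply]; ring
      rw [h3]
      refine (abs_add_le _ _).trans ?_
      push_cast
      linarith
    have e1 : Wr (N + 1 + 1) V x = (1 / 6) * ∑ e : Fin 3 × Bool,
      Real.exp (V 1 (x + stp e)) * Wr (N + 1) (fun n => V (n + 1)) (x + stp e) := rfl
    have e2 : Wr (N + 1) V x = (1 / 6) * ∑ e : Fin 3 × Bool,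
      Real.exp (V 1 (x + stp e)) * Wr N (fun n => V (n + 1)) (x + stp e) := rfl
    rw [e1, e2]
    constructor
    · have : ∑ e : Fin 3 × Bool, Real.exp (-A) * (Real.exp (V 1 (x + stp e)) * Wr N (fun n => V (n + 1)) (x + stp e))
        ≤ ∑ e : Fin 3 × Bool, Real.exp (V 1 (x + stp e)) * Wr (N + 1) (fun n => V (n + 1)) (x + stp e) := by
        apply Finset.sum_le_sum
        intro e _
        have := mul_le_mul_of_nonneg_left (key e).1 (Real.exp_pos (V 1 (x + stp e))).le
        linarith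
      rw [← Finset.mul_sum] at this
      linarith
    · have : ∑ e : Fin 3 × Bool, Real.exp (V 1 (x + stp e)) * Wr (N + 1) (fun n => V (n + 1)) (x + stp e)
        ≤ ∑ e : Fin 3 × Bool, Real.exp A * (Real.exp (V 1 (x + stp e)) * Wr N (fun n => V (n + 1)) (x + stp e)) := by
        apply Finset.sum_le_sum
        intro e _
        have := mul_le_mul_of_nonneg_left (key e).2 (Real.exp_pos (V 1 (x + stp e))).le
        linarith
      rw [← Finset.mul_sum] at this
      linarith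

lemma LW_step (β : ℝ) (hβ : 0 < β) (N : ℕ) (w : ℕ → (Fin 3 → ℤ) → ℝ) (B : ℝ)
    (h : ∀ y : Fin 3 → ℤ, (∀ i, |y i| ≤ N + 1) → |w (N + 1) y| ≤ B) :
    |LW β (N + 1) w - LW β N w| ≤ β * B + β ^ 2 / 2 := by
  have h1 := Wr_step N (β * B + β ^ 2 / 2) (Vb β w) 0 (by
    intro y hy
    have h2 := h y (by simpa using hy)
    unfold Vb
    refine (abs_sub _ _).trans ?_
    rw [abs_mul, abs_of_pos hβ, abs_of_nonneg (by positivity : (0:ℝ) ≤ β ^ 2 / 2)]
    have := mul_le_mul_of_nonneg_left h2 hβ.le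
    linarith)
  have hp1 := Wr_pos N (Vb β w) 0
  have hp2 := Wr_pos (N + 1) (Vb β w) 0
  unfold LW W
  rw [abs_le]
  constructor
  · have := Real.log_le_log (mul_pos (Real.exp_pos _) hp1) h1.1
    rw [Real.log_mul (Real.exp_pos _).ne' hp1.ne', Real.log_exp] at this
    linarith
  · have := Real.log_le_log hp2 h1.2
    rw [Real.log_mul (Real.exp_pos _).ne' hp1.ne', Real.log_exp] at this
    linarith

/-! ### probabilistic part -/

lemma ae_tendsto_zero {Ω : Type*} [MeasurableSpace Ω] {P : Measure Ω} (f : ℕ → Ω → ℝ≥0∞)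
    (hf : ∀ n, AEMeasurable (f n) P) (h : ∑' n, ∫⁻ w, f n w ∂P ≠ ∞) :
    ∀ᵐ w ∂P, Tendsto (fun n => f n w) atTop (𝓝 0) := by
  have h1 : ∫⁻ w, ∑' n, f n w ∂P ≠ ∞ := by rwa [lintegral_tsum hf]
  have h2 : ∀ᵐ w ∂P, ∑' n, f n w < ∞ := ae_lt_top' (AEMeasurable.tsum hf) h1
  filter_upwards [h2] with w hw
  exact ENNReal.tendsto_atTop_zero_of_tsum_ne_top hw.ne

/-- the box -/
noncomputable def box (n : ℕ) : Finset (Fin 3 → ℤ) := Fintype.piFinset (fun _ => Finset.Icc (-(n : ℤ)) n)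

lemma mem_box {n : ℕ} {y : Fin 3 → ℤ} : y ∈ box n ↔ ∀ i, |y i| ≤ n := by
  simp [box, Fintype.mem_piFinset, abs_le]

lemma card_box (n : ℕ) : (box n).card = (2 * n + 1) ^ 3 := by
  unfold box
  rw [Fintype.card_piFinset]
  simp only [Int.card_Icc, Finset.prod_const, Finset.card_univ, Fintype.card_fin]
  congr 1
  omega

lemma lint_exp {μ : Measure ((Fin 3 → ℤ) → ℝ)} (hμ : Good μ) (n : ℕ) (y : Fin 3 → ℤ) (t : ℝ) :
    ∫⁻ w, ENNReal.ofReal (Real.exp (t * w n y)) ∂(PP μ) = ENNReal.ofReal (Real.exp (t ^ 2 / 2)) := by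
  haveI := hμ.prob
  have h1 : MeasurePreserving (fun w : ℕ → (Fin 3 → ℤ) → ℝ => w n) (PP μ) μ :=
    measurePreserving_eval_infinitePi (fun _ : ℕ => μ) n
  have h2 : ∫⁻ w, ENNReal.ofReal (Real.exp (t * w n y)) ∂(PP μ)
      = ∫⁻ s, ENNReal.ofReal (Real.exp (t * s y)) ∂μ := by
    have := h1.lintegral_comp (f := fun s : (Fin 3 → ℤ) → ℝ => ENNReal.ofReal (Real.exp (t * s y)))
      (by fun_prop)
    exact this
  rw [h2, ← ofReal_integral_eq_lintegral_ofReal (hμ.int t y) (Eventually.of_forall fun s => (Real.exp_pos _).le),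
    hμ.mgf t y]

lemma prob_PP {μ : Measure ((Fin 3 → ℤ) → ℝ)} (hμ : Good μ) : IsProbabilityMeasure (PP μ) := by
  haveI := hμ.prob
  unfold PP
  infer_instance

lemma summ_aux : Summable (fun n : ℕ => 1 / ((n : ℝ) + 1) ^ 2) := by
  have := (summable_nat_add_iff 1).2 (Real.summable_one_div_nat_pow.2 (by norm_num : 1 < 2))
  simpa using this

lemma ae_box {μ : Measure ((Fin 3 → ℤ) → ℝ)} (hμ : Good μ) :
    ∀ᵐ w ∂(PP μ), ∀ᶠ n : ℕ in atTop, ∀ y ∈ box n, |w n y| ≤ 5 * Real.log (n + 1) := by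
  haveI := hμ.prob
  set Z : ℕ → (ℕ → (Fin 3 → ℤ) → ℝ) → ℝ≥0∞ := fun n w =>
    (∑ y ∈ box n, (ENNReal.ofReal (Real.exp (1 * w n y)) + ENNReal.ofReal (Real.exp ((-1) * w n y)))) *
      ENNReal.ofReal (1 / ((n : ℝ) + 1) ^ 5) with hZ
  have hmeas : ∀ n, Measurable (Z n) := by
    intro n
    rw [hZ]
    refine Measurable.mul_const ?_ _
    refine Finset.measurable_sum _ fun y _ => ?_
    fun_prop
  have hint : ∀ n, ∫⁻ w, Z n w ∂(PP μ) ≤ ENNReal.ofReal (16 * Real.exp (1 / 2) * (1 / ((n : ℝ) + 1) ^ 2)) := by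
    intro n
    rw [hZ]
    rw [lintegral_mul_const _ (Finset.measurable_sum _ fun y _ => by fun_prop)]
    rw [lintegral_finsetSum _ (fun y _ => by fun_prop)]
    have h1 : ∀ y ∈ box n, ∫⁻ w, (ENNReal.ofReal (Real.exp (1 * w n y)) + ENNReal.ofReal (Real.exp ((-1) * w n y))) ∂(PP μ)
        = ENNReal.ofReal (2 * Real.exp (1 / 2)) := by
      intro y _
      rw [lintegral_add_left (by fun_prop), lint_exp hμ n y 1, lint_exp hμ n y (-1),
        ← ENNReal.ofReal_add (Real.exp_pos _).le (Real.exp_pos _).le]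
      congr 1
      norm_num
      ring
    rw [Finset.sum_congr rfl h1, Finset.sum_const, card_box, nsmul_eq_mul]
    rw [← ENNReal.ofReal_natCast, ← ENNReal.ofReal_mul (by positivity), ← ENNReal.ofReal_mul (by positivity)]
    apply ENNReal.ofReal_le_ofReal
    push_cast
    have hn : (0 : ℝ) < (n : ℝ) + 1 := by positivity
    have h3 : (2 * (n : ℝ) + 1) ^ 3 ≤ 8 * ((n : ℝ) + 1) ^ 3 := by
      have : (2 * (n : ℝ) + 1) ^ 3 ≤ (2 * ((n : ℝ) + 1)) ^ 3 := by
        apply pow_le_pow_left₀ (by positivity)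
        linarith
      calc (2 * (n : ℝ) + 1) ^ 3 ≤ (2 * ((n : ℝ) + 1)) ^ 3 := this
        _ = 8 * ((n : ℝ) + 1) ^ 3 := by ring
    have he := Real.exp_pos (1 / 2)
    calc (2 * (n : ℝ) + 1) ^ 3 * (2 * Real.exp (1 / 2)) * (1 / ((n : ℝ) + 1) ^ 5)
        ≤ (8 * ((n : ℝ) + 1) ^ 3) * (2 * Real.exp (1 / 2)) * (1 / ((n : ℝ) + 1) ^ 5) := by gcongr
      _ = 16 * Real.exp (1 / 2) * (1 / ((n : ℝ) + 1) ^ 2) := by
        field_simp
        ring
  have hsum : ∑' n, ∫⁻ w, Z n w ∂(PP μ) ≠ ∞ := by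
    have h1 : ∑' n : ℕ, ENNReal.ofReal (16 * Real.exp (1 / 2) * (1 / ((n : ℝ) + 1) ^ 2)) ≠ ∞ := by
      rw [← ENNReal.ofReal_tsum_of_nonneg (fun n => by positivity) (summ_aux.mul_left _)]
      exact ENNReal.ofReal_ne_top
    exact ne_top_of_le_ne_top h1 (ENNReal.tsum_le_tsum hint)
  filter_upwards [ae_tendsto_zero Z (fun n => (hmeas n).aemeasurable) hsum] with w hw
  have hev : ∀ᶠ n in atTop, Z n w < 1 := hw.eventually_lt_const (by norm_num)
  filter_upwards [hev] with n hn y hy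
  have hn1 : (0 : ℝ) < (n : ℝ) + 1 := by positivity
  have h2 : ENNReal.ofReal (Real.exp (1 * w n y)) + ENNReal.ofReal (Real.exp ((-1) * w n y)) ≤
      ∑ y ∈ box n, (ENNReal.ofReal (Real.exp (1 * w n y)) + ENNReal.ofReal (Real.exp ((-1) * w n y))) :=
    Finset.single_le_sum (f := fun y => ENNReal.ofReal (Real.exp (1 * w n y)) + ENNReal.ofReal (Real.exp ((-1) * w n y)))
      (fun _ _ => bot_le) hy
  have h3 : (ENNReal.ofReal (Real.exp (1 * w n y)) + ENNReal.ofReal (Real.exp ((-1) * w n y))) *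
      ENNReal.ofReal (1 / ((n : ℝ) + 1) ^ 5) < 1 := lt_of_le_of_lt (mul_le_mul' h2 le_rfl) hn
  rw [← ENNReal.ofReal_add (Real.exp_pos _).le (Real.exp_pos _).le, ← ENNReal.ofReal_mul (by positivity),
    ENNReal.ofReal_lt_one] at h3
  have h4 : Real.exp (1 * w n y) + Real.exp ((-1) * w n y) < ((n : ℝ) + 1) ^ 5 := by
    rw [mul_one_div, div_lt_one (by positivity)] at h3
    exact h3
  have e1 := Real.exp_pos (1 * w n y)
  have e2 := Real.exp_pos ((-1) * w n y)
  have h5 : w n y ≤ 5 * Real.log (n + 1) := by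
    have := Real.log_le_log e1 (by linarith : Real.exp (1 * w n y) ≤ ((n : ℝ) + 1) ^ 5)
    rw [Real.log_exp, Real.log_pow] at this
    push_cast at this
    linarith
  have h6 : -w n y ≤ 5 * Real.log (n + 1) := by
    have := Real.log_le_log e2 (by linarith : Real.exp ((-1) * w n y) ≤ ((n : ℝ) + 1) ^ 5)
    rw [Real.log_exp, Real.log_pow] at this
    push_cast at this
    linarith
  exact abs_le.2 ⟨by linarith, h5⟩

/-- convergence along the squares -/
lemma ae_squares {μ : Measure ((Fin 3 → ℤ) → ℝ)} (hInt : TaskInt) (hμ : Good μ) (β : ℝ)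
    (C : ℝ) (hC : 0 ≤ C) (hv : ∀ N : ℕ, variance (LW β N) (PP μ) ≤ C * N) :
    ∀ᵐ w ∂(PP μ), Tendsto (fun k : ℕ => (LW β ((k + 1) ^ 2) w - ∫ w, LW β ((k + 1) ^ 2) w ∂(PP μ)) /
      ((k : ℝ) + 1) ^ 2) atTop (𝓝 0) := by
  haveI := hμ.prob
  haveI := prob_PP hμ
  set f : ℕ → (ℕ → (Fin 3 → ℤ) → ℝ) → ℝ≥0∞ := fun k w =>
    ‖LW β ((k + 1) ^ 2) w - ∫ w, LW β ((k + 1) ^ 2) w ∂(PP μ)‖ₑ ^ 2 * ENNReal.ofReal (1 / ((k : ℝ) + 1) ^ 4) with hf
  have hL : ∀ N, MemLp (LW β N) 2 (PP μ) := fun N => (hInt μ hμ β N).2.2.2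
  have hmeas : ∀ k, AEMeasurable (f k) (PP μ) := by
    intro k
    rw [hf]
    have := (hL ((k + 1) ^ 2)).aestronglyMeasurable.aemeasurable
    fun_prop
  have hint : ∀ k, ∫⁻ w, f k w ∂(PP μ) ≤ ENNReal.ofReal (C * (1 / ((k : ℝ) + 1) ^ 2)) := by
    intro k
    rw [hf]
    have h0 := (hL ((k + 1) ^ 2)).aestronglyMeasurable.aemeasurable
    rw [lintegral_mul_const'' _ (by fun_prop)]
    have h1 : ∫⁻ w, ‖LW β ((k + 1) ^ 2) w - ∫ w, LW β ((k + 1) ^ 2) w ∂(PP μ)‖ₑ ^ 2 ∂(PP μ)
        = ENNReal.ofReal (variance (LW β ((k + 1) ^ 2)) (PP μ)) := by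
      rw [ProbabilityTheory.ofReal_variance (hL _)]
      rfl
    rw [h1, ← ENNReal.ofReal_mul (variance_nonneg _ _)]
    apply ENNReal.ofReal_le_ofReal
    have hk : (0 : ℝ) < (k : ℝ) + 1 := by positivity
    have h2 := hv ((k + 1) ^ 2)
    push_cast at h2
    calc variance (LW β ((k + 1) ^ 2)) (PP μ) * (1 / ((k : ℝ) + 1) ^ 4)
        ≤ (C * ((k : ℝ) + 1) ^ 2) * (1 / ((k : ℝ) + 1) ^ 4) := by gcongr
      _ = C * (1 / ((k : ℝ) + 1) ^ 2) := by field_simp
  have hsum : ∑' n, ∫⁻ w, f n w ∂(PP μ) ≠ ∞ := by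
    have h1 : ∑' n : ℕ, ENNReal.ofReal (C * (1 / ((n : ℝ) + 1) ^ 2)) ≠ ∞ := by
      rw [← ENNReal.ofReal_tsum_of_nonneg (fun n => by positivity) (summ_aux.mul_left _)]
      exact ENNReal.ofReal_ne_top
    exact ne_top_of_le_ne_top h1 (ENNReal.tsum_le_tsum hint)
  filter_upwards [ae_tendsto_zero f hmeas hsum] with w hw
  have h1 : ∀ k, f k w = ENNReal.ofReal (((LW β ((k + 1) ^ 2) w - ∫ w, LW β ((k + 1) ^ 2) w ∂(PP μ)) /
      ((k : ℝ) + 1) ^ 2) ^ 2) := by
    intro k
    simp only [hf]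
    rw [← ofReal_norm, ← ENNReal.ofReal_pow (norm_nonneg _), ← ENNReal.ofReal_mul (by positivity),
      Real.norm_eq_abs, sq_abs]
    congr 1
    rw [div_pow]
    ring
  have h2 : Tendsto (fun k : ℕ => ((LW β ((k + 1) ^ 2) w - ∫ w, LW β ((k + 1) ^ 2) w ∂(PP μ)) /
      ((k : ℝ) + 1) ^ 2) ^ 2) atTop (𝓝 0) := by
    have h3 := (ENNReal.tendsto_toReal (by norm_num : (0 : ℝ≥0∞) ≠ ∞)).comp hw
    simp only [Function.comp_def, ENNReal.toReal_zero] at h3
    refine h3.congr fun k => ?_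
    rw [h1 k, ENNReal.toReal_ofReal (sq_nonneg _)]
  have h4 := (Real.continuous_sqrt.tendsto 0).comp h2
  simp only [Function.comp_def, Real.sqrt_sq_eq_abs, Real.sqrt_zero] at h4
  exact (tendsto_zero_iff_abs_tendsto_zero _).2 h4

lemma LW_steps (β : ℝ) (hβ : 0 < β) (w : ℕ → (Fin 3 → ℤ) → ℝ) (n₀ : ℕ)
    (hn₀ : ∀ n ≥ n₀, ∀ y ∈ box n, |w n y| ≤ 5 * Real.log (n + 1)) (M : ℝ) (a : ℕ) (ha : n₀ ≤ a) (j : ℕ)
    (hM : ∀ n ≤ a + j, 5 * Real.log (n + 1) ≤ M) :
    |LW β (a + j) w - LW β a w| ≤ j * (β * M + β ^ 2 / 2) := by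
  induction j with
  | zero => simp
  | succ j ih =>
    have h1 := ih (fun n hn => hM n (by omega))
    have h2 := LW_step β hβ (a + j) w M (by
      intro y hy
      have h3 := hn₀ (a + j + 1) (by omega) y (mem_box.2 (by
        intro i
        have := hy i
        push_cast at this ⊢
        exact this))
      exact h3.trans (hM (a + j + 1) (by omega)))
    have h3 : LW β (a + (j + 1)) w - LW β a w
        = (LW β (a + j + 1) w - LW β (a + j) w) + (LW β (a + j) w - LW β a w) := by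
      rw [← add_assoc]; ring
    rw [h3]
    refine (abs_add_le _ _).trans ?_
    push_cast
    linarith

theorem taskAS : TaskAS := by
  intro _ hInt μ hμ β hβ ⟨C, hC, hv⟩ p hp
  filter_upwards [ae_box hμ, ae_squares hInt hμ β C hC hv] with w hw1 hw2
  obtain ⟨n₀, hn₀⟩ := eventually_atTop.1 hw1
  -- the means along squares
  have hsq : Tendsto (fun k : ℕ => (k + 1) ^ 2) atTop atTop := by
    refine tendsto_atTop_mono (fun k => ?_) (tendsto_add_atTop_nat 1)
    nlinarith [Nat.zero_le k]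
  have h1 : Tendsto (fun k : ℕ => LW β ((k + 1) ^ 2) w / ((k : ℝ) + 1) ^ 2) atTop (𝓝 p) := by
    have h2 := hp.comp hsq
    have h3 := hw2.add h2
    rw [zero_add] at h3
    refine h3.congr fun k => ?_
    simp only [Function.comp_apply]
    push_cast
    ring
  -- the index of the square below
  have hk : Tendsto (fun N : ℕ => Nat.sqrt (N + 1) - 1) atTop atTop := by
    rw [tendsto_atTop_atTop]
    intro b
    refine ⟨(b + 1) ^ 2, fun N hN => ?_⟩
    have : b + 1 ≤ Nat.sqrt (N + 1) := by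
      rw [Nat.le_sqrt]
      nlinarith
    omega
  have hkey : Tendsto (fun N : ℕ => LW β (N + 1) w / ((N + 1 : ℕ) : ℝ)) atTop (𝓝 p) := by
    set k : ℕ → ℕ := fun N => Nat.sqrt (N + 1) - 1 with hkdef
    have hk1 : ∀ N, k N + 1 = Nat.sqrt (N + 1) := by
      intro N
      have : 1 ≤ Nat.sqrt (N + 1) := by rw [Nat.le_sqrt]; omega
      simp only [hkdef]; omega
    have hlow : ∀ N, (k N + 1) ^ 2 ≤ N + 1 := by
      intro N; rw [hk1, pow_two]; exact Nat.sqrt_le (N + 1)
    have hup : ∀ N, N + 1 < (k N + 2) ^ 2 := by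
      intro N
      have := Nat.lt_succ_sqrt (N + 1)
      rw [← hk1] at this
      rw [pow_two]; exact this
    -- ratio
    have hrat : Tendsto (fun N : ℕ => ((k N : ℝ) + 1) ^ 2 / ((N : ℝ) + 1)) atTop (𝓝 1) := by
      have hlo : Tendsto (fun N : ℕ => (((k N : ℝ) + 1) / ((k N : ℝ) + 2)) ^ 2) atTop (𝓝 1) := by
        have h5 : Tendsto (fun m : ℕ => (((m : ℝ) + 1) / ((m : ℝ) + 2)) ^ 2) atTop (𝓝 1) := by
          have h6 : Tendsto (fun m : ℕ => 1 - 1 / ((m : ℝ) + 2)) atTop (𝓝 1) := by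
            have h7 : Tendsto (fun m : ℕ => 1 / ((m : ℝ) + 2)) atTop (𝓝 0) := by
              have := (tendsto_natCast_atTop_atTop (R := ℝ)).atTop_add (tendsto_const_nhds (x := (2 : ℝ)))
              exact this.inv_tendsto_atTop.congr fun m => by simp [one_div]
            simpa using (tendsto_const_nhds (x := (1 : ℝ))).sub h7
          have h8 := h6.pow 2
          rw [one_pow] at h8
          refine h8.congr fun m => ?_
          have : (m : ℝ) + 2 ≠ 0 := by positivity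
          congr 1
          field_simp
          ring
        exact h5.comp hk
      refine tendsto_of_tendsto_of_tendsto_of_le_of_le hlo tendsto_const_nhds (fun N => ?_) (fun N => ?_)
      · simp only
        rw [div_pow]
        apply div_le_div_of_nonneg_left (by positivity) (by positivity)
        have := hup N
        have h9 : ((N + 1 : ℕ) : ℝ) < ((k N + 2 : ℕ) : ℝ) ^ 2 := by exact_mod_cast this
        push_cast at h9
        linarith
      · simp only
        rw [div_le_one (by positivity)]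
        have := hlow N
        have h9 : ((k N + 1 : ℕ) : ℝ) ^ 2 ≤ ((N + 1 : ℕ) : ℝ) := by exact_mod_cast this
        push_cast at h9
        linarith
    -- the remainder
    set R : ℕ → ℝ := fun m => (2 * (m : ℝ) + 3) * (β * (5 * Real.log (((m : ℝ) + 2) ^ 2 + 1)) + β ^ 2 / 2) with hR
    have hrem : ∀ᶠ N : ℕ in atTop, |LW β (N + 1) w - LW β ((k N + 1) ^ 2) w| ≤ R (k N) := by
      have hev : ∀ᶠ N : ℕ in atTop, n₀ ≤ k N := hk.eventually_ge_atTop n₀
      filter_upwards [hev] with N hN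
      have hlo := hlow N
      have hu := hup N
      obtain ⟨j, hj⟩ := Nat.exists_eq_add_of_le hlo
      have hj2 : j ≤ 2 * k N + 3 := by nlinarith
      have h5 := LW_steps β hβ w n₀ hn₀ (5 * Real.log (((k N : ℝ) + 2) ^ 2 + 1)) ((k N + 1) ^ 2)
        (by nlinarith) j (by
          intro n hn
          have hn' : (n : ℝ) ≤ ((k N : ℝ) + 2) ^ 2 := by
            have : n ≤ (k N + 2) ^ 2 := by omega
            exact_mod_cast this
          have : Real.log ((n : ℝ) + 1) ≤ Real.log (((k N : ℝ) + 2) ^ 2 + 1) :=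
            Real.log_le_log (by positivity) (by linarith)
          linarith)
      rw [hj]
      refine h5.trans ?_
      rw [hR]
      have hlog : 0 ≤ Real.log (((k N : ℝ) + 2) ^ 2 + 1) := Real.log_nonneg (by nlinarith [sq_nonneg ((k N : ℝ) + 2)])
      have hj3 : (j : ℝ) ≤ 2 * (k N : ℝ) + 3 := by exact_mod_cast hj2
      exact mul_le_mul_of_nonneg_right hj3 (by positivity)
    have hRlim : Tendsto (fun m : ℕ => R m / ((m : ℝ) + 1) ^ 2) atTop (𝓝 0) := by
      -- bound by a multiple of (m+1)^(-1/2)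
      have hlogb : ∀ m : ℕ, Real.log (((m : ℝ) + 2) ^ 2 + 1) ≤ 8 * Real.sqrt ((m : ℝ) + 1) := by
        intro m
        have hm : (0 : ℝ) < (m : ℝ) + 1 := by positivity
        have hs : 0 < Real.sqrt ((m : ℝ) + 1) := Real.sqrt_pos.2 hm
        have hss : Real.sqrt ((m : ℝ) + 1) ^ 2 = (m : ℝ) + 1 := Real.sq_sqrt hm.le
        have hs1 : 1 ≤ Real.sqrt ((m : ℝ) + 1) := by
          rw [Real.one_le_sqrt]; linarith [Nat.cast_nonneg (α := ℝ) m]
        set s := Real.sqrt ((m : ℝ) + 1) with hsdef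
        have h6 : ((m : ℝ) + 2) ^ 2 + 1 ≤ (3 * s) ^ 4 := by
          have h7 : (m : ℝ) + 2 ≤ 2 * s ^ 2 := by rw [hss]; linarith [Nat.cast_nonneg (α := ℝ) m]
          have h8 : (0 : ℝ) ≤ (m : ℝ) + 2 := by positivity
          have h9 : 1 ≤ s ^ 4 := one_le_pow₀ hs1
          nlinarith [mul_le_mul h7 h7 h8 (by positivity)]
        have h7 : Real.log (((m : ℝ) + 2) ^ 2 + 1) ≤ Real.log ((3 * s) ^ 4) := Real.log_le_log (by positivity) h6
        rw [Real.log_pow] at h7
        have h8 : Real.log (3 * s) ≤ 2 * s := by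
          rw [Real.log_mul (by norm_num) hs.ne']
          have a1 : Real.log s ≤ s - 1 := Real.log_le_sub_one_of_pos hs
          have a2 : Real.log 3 ≤ 2 := by
            have := Real.log_le_sub_one_of_pos (by norm_num : (0:ℝ) < 3)
            linarith
          linarith
        push_cast at h7
        linarith
      have hb : ∀ m : ℕ, R m / ((m : ℝ) + 1) ^ 2 ≤ (120 * β + 2 * β ^ 2) * (1 / Real.sqrt ((m : ℝ) + 1)) := by
        intro m
        have hm : (0 : ℝ) < (m : ℝ) + 1 := by positivity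
        have hs : 0 < Real.sqrt ((m : ℝ) + 1) := Real.sqrt_pos.2 hm
        have hss : Real.sqrt ((m : ℝ) + 1) ^ 2 = (m : ℝ) + 1 := Real.sq_sqrt hm.le
        have hs1 : 1 ≤ Real.sqrt ((m : ℝ) + 1) := by
          rw [Real.one_le_sqrt]; linarith [Nat.cast_nonneg (α := ℝ) m]
        have h6 := hlogb m
        have h7 : R m ≤ (3 * ((m : ℝ) + 1)) * ((40 * β + β ^ 2 / 2) * Real.sqrt ((m : ℝ) + 1)) := by
          rw [hR]
          have h8 : β * (5 * Real.log (((m : ℝ) + 2) ^ 2 + 1)) + β ^ 2 / 2 ≤ (40 * β + β ^ 2 / 2) * Real.sqrt ((m : ℝ) + 1) := by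
            have a1 : β * (5 * Real.log (((m : ℝ) + 2) ^ 2 + 1)) ≤ β * (5 * (8 * Real.sqrt ((m : ℝ) + 1))) := by gcongr
            have a2 : β ^ 2 / 2 ≤ β ^ 2 / 2 * Real.sqrt ((m : ℝ) + 1) := le_mul_of_one_le_right (by positivity) hs1
            linarith
          have h9 : 2 * (m : ℝ) + 3 ≤ 3 * ((m : ℝ) + 1) := by linarith [Nat.cast_nonneg (α := ℝ) m]
          have hlog : 0 ≤ Real.log (((m : ℝ) + 2) ^ 2 + 1) := Real.log_nonneg (by nlinarith [sq_nonneg ((m : ℝ) + 2)])
          exact mul_le_mul h9 h8 (by positivity) (by positivity)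
        rw [div_le_iff₀ (by positivity)]
        refine h7.trans ?_
        set s := Real.sqrt ((m : ℝ) + 1) with hsdef
        rw [← hss]
        have : (120 * β + 2 * β ^ 2) * (1 / s) * (s ^ 2) ^ 2 = (120 * β + 2 * β ^ 2) * s ^ 3 := by
          field_simp
        rw [this]
        have h10 : 0 < s ^ 3 := by positivity
        have h11 : 0 < β ^ 2 := by positivity
        nlinarith [mul_pos h11 h10]
      have hz : Tendsto (fun m : ℕ => (120 * β + 2 * β ^ 2) * (1 / Real.sqrt ((m : ℝ) + 1))) atTop (𝓝 0) := by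
        have h6 : Tendsto (fun m : ℕ => Real.sqrt ((m : ℝ) + 1)) atTop atTop :=
          Real.tendsto_sqrt_atTop.comp ((tendsto_natCast_atTop_atTop (R := ℝ)).atTop_add (tendsto_const_nhds (x := (1 : ℝ))))
        have h7 := h6.inv_tendsto_atTop.const_mul (120 * β + 2 * β ^ 2)
        simpa [one_div] using h7
      refine squeeze_zero (fun m => ?_) hb hz
      have hlog : 0 ≤ Real.log (((m : ℝ) + 2) ^ 2 + 1) := Real.log_nonneg (by nlinarith [sq_nonneg ((m : ℝ) + 2)])
      rw [hR]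
      positivity
    have hrem0 : Tendsto (fun N : ℕ => (LW β (N + 1) w - LW β ((k N + 1) ^ 2) w) / ((N : ℝ) + 1)) atTop (𝓝 0) := by
      rw [tendsto_zero_iff_abs_tendsto_zero]
      refine squeeze_zero' (Eventually.of_forall fun N => abs_nonneg _) ?_ (hRlim.comp hk)
      filter_upwards [hrem] with N hN
      simp only [Function.comp_apply]
      rw [abs_div, abs_of_pos (by positivity : (0 : ℝ) < (N : ℝ) + 1)]
      have h9 : ((k N + 1 : ℕ) : ℝ) ^ 2 ≤ ((N + 1 : ℕ) : ℝ) := by exact_mod_cast hlow N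
      push_cast at h9
      exact div_le_div₀ ((abs_nonneg _).trans hN) hN (by positivity) h9
    have hfin := ((h1.comp hk).mul hrat).add hrem0
    rw [mul_one, add_zero] at hfin
    refine hfin.congr fun N => ?_
    simp only [Function.comp_apply]
    have ha : ((k N : ℝ) + 1) ^ 2 ≠ 0 := by positivity
    have hb : (N : ℝ) + 1 ≠ 0 := by positivity
    push_cast
    field_simp
    ring
  exact (tendsto_add_atTop_iff_nat 1).1 hkey

end Pool.Agent.H12R3.CPAS
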