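import Pool.Agent.H12R3.Bump

set_option autoImplicit false

open Set Filter Topology

namespace Pool.Agent.H12R3

/-- The splitting condition. -/
def Splits (G M : ℝ → ℝ) (S : Set (ℝ × ℝ)) : Prop :=
  ∀ p ∈ S, ∀ ε : ℝ, 0 < ε → ∃ p' ∈ S, ∃ p'' ∈ S, p'.1 ≠ p''.1 ∧
    |p'.1 - p.1| < ε ∧ |p''.1 - p.1| < ε ∧
    |M p'.1 - M p.1| < ε ∧ |M p''.1 - M p.1| < ε ∧ |p'.2 - p.2| < ε ∧ |p''.2 - p.2| < ε ∧
    |M p''.1 - M p'.1 - p'.2 * (p''.1 - p'.1)| ≤ ε * |p''.1 - p'.1| ∧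
    |G p''.1 - G p'.1 - M p'.1 * (p''.1 - p'.1) - p'.2 * (p''.1 - p'.1) ^ 2 / 2| ≤
      ε * |p''.1 - p'.1| ^ 2

/-- The quadratic jet attached to a point of the scheme. -/
noncomputable def TT (G M : ℝ → ℝ) (p : ℝ × ℝ) (t : ℝ) : ℝ :=
  G p.1 + M p.1 * (t - p.1) + p.2 * (t - p.1) ^ 2 / 2

theorem TT_sub (G M : ℝ → ℝ) (p q : ℝ × ℝ) (c t : ℝ) :
    TT G M q t - TT G M p t =
      (TT G M q c - TT G M p c) +
      ((M q.1 + q.2 * (c - q.1)) - (M p.1 + p.2 * (c - p.1))) * (t - c) +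
      (q.2 - p.2) * (t - c) ^ 2 / 2 := by
  unfold TT
  ring

/-- small positive number below finitely many given positive ones -/
theorem exists_small (a b c d e : ℝ) (ha : 0 < a) (hb : 0 < b) (hc : 0 < c) (hd : 0 < d)
    (he : 0 < e) : ∃ x : ℝ, 0 < x ∧ x ≤ a ∧ x ≤ b ∧ x ≤ c ∧ x ≤ d ∧ x ≤ e := by
  refine ⟨min a (min b (min c (min d e))), by positivity, ?_, ?_, ?_, ?_, ?_⟩ <;> simp

theorem step (G M : ℝ → ℝ) (hG : Continuous G) (S : Set (ℝ × ℝ)) (hS : Splits G M S)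
    (p : ℝ × ℝ) (hp : p ∈ S) (ρ : ℝ) (hρ : 0 < ρ) (hρ1 : ρ ≤ 1) (δ : ℝ) (hδ : 0 < δ) :
    ∃ (q : Bool → ℝ × ℝ) (σ : Bool → ℝ) (w w' w'' : ℝ → ℝ),
      (∀ b, q b ∈ S) ∧ (∀ b, 0 < σ b) ∧ (∀ b, σ b ≤ 1) ∧
      (∀ b, |(q b).1 - p.1| + 2 * σ b ≤ ρ) ∧
      (2 * σ false + 2 * σ true < |(q true).1 - (q false).1|) ∧
      (∀ b, (|M (q b).1| + |(q b).2| + 1) * σ b ≤ δ) ∧
      (∀ t, HasDerivAt w (w' t) t) ∧ (∀ t, HasDerivAt w' (w'' t) t) ∧
      (∀ t, |w t| ≤ δ) ∧ (∀ t, |w' t| ≤ δ) ∧ (∀ t, |w'' t| ≤ δ) ∧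
      (∀ t, 2 * ρ ≤ |t - p.1| → w t = 0) ∧
      (∀ b t, |t - (q b).1| ≤ σ b → w t = TT G M (q b) t - TT G M p t) := by
  obtain ⟨C, hC, hbump⟩ := quad_bump
  -- choose ε
  set K : ℝ := |M p.1| + 2 * |p.2| + 6 with hK
  have hKpos : 0 < K := by positivity
  obtain ⟨ε, hε, hε1, hε2, hε3, hε4, -⟩ := exists_small (1 / 2) (ρ / 8) (δ * ρ ^ 2 / (2 * C * K))
    (δ / (44 * C)) 1 (by norm_num) (by positivity) (by positivity) (by positivity) one_pos
  -- continuity of G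
  obtain ⟨η, hη, hηG⟩ := Metric.continuousAt_iff.1 (hG.continuousAt (x := p.1)) ε hε
  obtain ⟨ε', hε', hε'1, hε'2, -, -, -⟩ := exists_small ε η 1 1 1 hε hη one_pos one_pos one_pos
  obtain ⟨p', hp', p'', hp'', hne, a1, a2, b1, b2, c1, c2, d1, d2⟩ := hS p hp ε' hε'
  have g1 : |G p'.1 - G p.1| < ε := by
    have := hηG (x := p'.1) (by rw [Real.dist_eq]; linarith)
    rwa [Real.dist_eq] at this
  set d : ℝ := |p''.1 - p'.1| with hd
  have hdpos : 0 < d := abs_pos.2 (sub_ne_zero.2 hne.symm)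
  have hd2 : d ≤ 2 * ε := by
    have : p''.1 - p'.1 = (p''.1 - p.1) - (p'.1 - p.1) := by ring
    rw [hd, this]
    refine le_trans (abs_sub _ _) ?_
    linarith
  -- first bump
  obtain ⟨w1, w1', w1'', h11, h12, h13, h14, h15, h16, h17⟩ := hbump p.1 ρ
    (TT G M p' p.1 - TT G M p p.1)
    ((M p'.1 + p'.2 * (p.1 - p'.1)) - (M p.1 + p.2 * (p.1 - p.1))) (p'.2 - p.2) hρ hρ1
  -- second bump
  obtain ⟨w2, w2', w2'', h21, h22, h23, h24, h25, h26, h27⟩ := hbump p''.1 (d / 4)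
    (TT G M p'' p''.1 - TT G M p' p''.1)
    ((M p''.1 + p''.2 * (p''.1 - p''.1)) - (M p'.1 + p'.2 * (p''.1 - p'.1))) (p''.2 - p'.2)
    (by positivity) (by linarith)
  -- bounds
  have B1 : C * (|TT G M p' p.1 - TT G M p p.1| / ρ ^ 2 +
      |(M p'.1 + p'.2 * (p.1 - p'.1)) - (M p.1 + p.2 * (p.1 - p.1))| / ρ + |p'.2 - p.2|) ≤
      δ / 2 := by
    have hh : |p.1 - p'.1| ≤ ε := by rw [abs_sub_comm]; linarith
    have hm : |M p'.1| ≤ |M p.1| + ε := by
      have := abs_add_le (M p'.1 - M p.1) (M p.1)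
      rw [sub_add_cancel] at this
      linarith
    have hl : |p'.2| ≤ |p.2| + ε := by
      have := abs_add_le (p'.2 - p.2) (p.2)
      rw [sub_add_cancel] at this
      linarith
    have hlh : |p'.2 * (p.1 - p'.1)| ≤ (|p.2| + 1) * ε := by
      rw [abs_mul]
      apply mul_le_mul (by linarith) hh (abs_nonneg _) (by positivity)
    have hmh : |M p'.1 * (p.1 - p'.1)| ≤ (|M p.1| + 1) * ε := by
      rw [abs_mul]
      apply mul_le_mul (by linarith) hh (abs_nonneg _) (by positivity)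
    have hlh2 : |p'.2 * (p.1 - p'.1) ^ 2 / 2| ≤ (|p.2| + 1) * ε := by
      have e : p'.2 * (p.1 - p'.1) ^ 2 / 2 = (p'.2 * (p.1 - p'.1)) * ((p.1 - p'.1) / 2) := by ring
      rw [e, abs_mul]
      have : |(p.1 - p'.1) / 2| ≤ 1 := by
        rw [abs_div, abs_two]; linarith
      calc |p'.2 * (p.1 - p'.1)| * |(p.1 - p'.1) / 2| ≤ ((|p.2| + 1) * ε) * 1 :=
            mul_le_mul hlh this (abs_nonneg _) (by positivity)
        _ = _ := by ring
    have t1 : |TT G M p' p.1 - TT G M p p.1| ≤ ε * (|M p.1| + |p.2| + 3) := by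
      have e : TT G M p' p.1 - TT G M p p.1 =
        (G p'.1 - G p.1) + M p'.1 * (p.1 - p'.1) + p'.2 * (p.1 - p'.1) ^ 2 / 2 := by
        unfold TT; ring
      rw [e]
      refine le_trans (abs_add_three _ _ _) ?_
      nlinarith
    have t2 : |(M p'.1 + p'.2 * (p.1 - p'.1)) - (M p.1 + p.2 * (p.1 - p.1))| ≤
        ε * (|p.2| + 2) := by
      have e : (M p'.1 + p'.2 * (p.1 - p'.1)) - (M p.1 + p.2 * (p.1 - p.1)) =
        (M p'.1 - M p.1) + p'.2 * (p.1 - p'.1) := by ring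
      rw [e]
      refine le_trans (abs_add_le _ _) ?_
      nlinarith
    have t3 : |p'.2 - p.2| ≤ ε := by linarith
    have hρ2 : ρ ^ 2 ≤ ρ := by nlinarith
    have hρ3 : ρ ^ 2 ≤ 1 := by nlinarith
    have s1 : |TT G M p' p.1 - TT G M p p.1| / ρ ^ 2 ≤ ε * (|M p.1| + |p.2| + 3) / ρ ^ 2 := by
      gcongr
    have s2 : |(M p'.1 + p'.2 * (p.1 - p'.1)) - (M p.1 + p.2 * (p.1 - p.1))| / ρ ≤
        ε * (|p.2| + 2) / ρ ^ 2 := by
      apply div_le_div₀ (by positivity) t2 (by positivity) hρ2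
    have s3 : |p'.2 - p.2| ≤ ε / ρ ^ 2 := by
      rw [le_div_iff₀ (by positivity)]
      nlinarith [abs_nonneg (p'.2 - p.2)]
    have s4 : ε * (|M p.1| + |p.2| + 3) / ρ ^ 2 + ε * (|p.2| + 2) / ρ ^ 2 + ε / ρ ^ 2 =
        ε * K / ρ ^ 2 := by
      rw [hK]; ring
    have s5 : C * (ε * K / ρ ^ 2) ≤ δ / 2 := by
      have : C * (ε * K / ρ ^ 2) ≤ C * ((δ * ρ ^ 2 / (2 * C * K)) * K / ρ ^ 2) := by gcongr
      refine le_trans this (le_of_eq ?_)
      field_simp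
    refine le_trans ?_ s5
    apply mul_le_mul_of_nonneg_left _ hC.le
    linarith
  have B2 : C * (|TT G M p'' p''.1 - TT G M p' p''.1| / (d / 4) ^ 2 +
      |(M p''.1 + p''.2 * (p''.1 - p''.1)) - (M p'.1 + p'.2 * (p''.1 - p'.1))| / (d / 4) +
        |p''.2 - p'.2|) ≤ δ / 2 := by
    have t1 : |TT G M p'' p''.1 - TT G M p' p''.1| ≤ ε * d ^ 2 := by
      have e : TT G M p'' p''.1 - TT G M p' p''.1 =
        G p''.1 - G p'.1 - M p'.1 * (p''.1 - p'.1) - p'.2 * (p''.1 - p'.1) ^ 2 / 2 := by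
        unfold TT; ring
      rw [e]
      refine le_trans d2 ?_
      gcongr
    have t2 : |(M p''.1 + p''.2 * (p''.1 - p''.1)) - (M p'.1 + p'.2 * (p''.1 - p'.1))| ≤
        ε * d := by
      have e : (M p''.1 + p''.2 * (p''.1 - p''.1)) - (M p'.1 + p'.2 * (p''.1 - p'.1)) =
        M p''.1 - M p'.1 - p'.2 * (p''.1 - p'.1) := by ring
      rw [e]
      refine le_trans d1 ?_
      gcongr
    have t3 : |p''.2 - p'.2| ≤ 2 * ε := by
      have : p''.2 - p'.2 = (p''.2 - p.2) - (p'.2 - p.2) := by ring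
      rw [this]
      refine le_trans (abs_sub _ _) ?_
      linarith
    have s1 : |TT G M p'' p''.1 - TT G M p' p''.1| / (d / 4) ^ 2 ≤ 16 * ε := by
      rw [div_le_iff₀ (by positivity)]
      nlinarith
    have s2 : |(M p''.1 + p''.2 * (p''.1 - p''.1)) - (M p'.1 + p'.2 * (p''.1 - p'.1))| / (d / 4)
        ≤ 4 * ε := by
      rw [div_le_iff₀ (by positivity)]
      nlinarith
    have s5 : C * (22 * ε) ≤ δ / 2 := by
      have : C * (22 * ε) ≤ C * (22 * (δ / (44 * C))) := by gcongr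
      refine le_trans this (le_of_eq ?_)
      field_simp
      norm_num
    refine le_trans ?_ s5
    apply mul_le_mul_of_nonneg_left _ hC.le
    linarith
  -- radii
  obtain ⟨σ, hσ, σ1, σ2, σ3, σ4, σ5⟩ := exists_small (1 : ℝ) (ρ / 4) (d / 8)
    (δ / (|M p'.1| + |p'.2| + 1)) (δ / (|M p''.1| + |p''.2| + 1)) one_pos (by positivity)
    (by positivity) (by positivity) (by positivity)
  have D1 : |p'.1 - p.1| ≤ ε := by linarith
  have D2 : |p''.1 - p.1| ≤ ε := by linarith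
  refine ⟨fun b => if b then p'' else p', fun _ => σ, fun t => w1 t + w2 t, fun t => w1' t + w2' t,
    fun t => w1'' t + w2'' t, ?_, ?_, ?_, ?_, ?_, ?_, ?_, ?_, ?_, ?_, ?_, ?_, ?_⟩
  · intro b; cases b <;> simp [hp', hp'']
  · intro b; exact hσ
  · intro b; exact σ1
  · intro b
    cases b
    · simp only [Bool.false_eq_true, if_false]
      linarith
    · simp only [if_true]
      linarith
  · simp only [Bool.false_eq_true, if_false, if_true]
    linarith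
  · intro b
    cases b
    · simp only [Bool.false_eq_true, if_false]
      rw [le_div_iff₀ (by positivity)] at σ4
      linarith
    · simp only [if_true]
      rw [le_div_iff₀ (by positivity)] at σ5
      linarith
  · intro t; exact (h11 t).add (h21 t)
  · intro t; exact (h12 t).add (h22 t)
  · intro t
    refine le_trans (abs_add_le _ _) ?_
    linarith [h13 t, h23 t]
  · intro t
    refine le_trans (abs_add_le _ _) ?_
    linarith [h14 t, h24 t]
  · intro t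
    refine le_trans (abs_add_le _ _) ?_
    linarith [h15 t, h25 t]
  · intro t ht
    show w1 t + w2 t = 0
    rw [h17 t ht, h27 t ?_, add_zero]
    have : |t - p.1| ≤ |t - p''.1| + |p''.1 - p.1| := abs_sub_le _ _ _
    linarith
  · intro b t ht
    cases b
    · simp only [Bool.false_eq_true, if_false] at ht ⊢
      have i1 : |t - p.1| ≤ ρ := by
        have : |t - p.1| ≤ |t - p'.1| + |p'.1 - p.1| := abs_sub_le _ _ _
        linarith
      have i2 : 2 * (d / 4) ≤ |t - p''.1| := by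
        have : |p''.1 - p'.1| ≤ |p''.1 - t| + |t - p'.1| := abs_sub_le _ _ _
        rw [abs_sub_comm p''.1 t] at this
        linarith
      rw [h16 t i1, h27 t i2, add_zero, TT_sub G M p p' p.1 t]
    · simp only [if_true] at ht ⊢
      have i1 : |t - p.1| ≤ ρ := by
        have : |t - p.1| ≤ |t - p''.1| + |p''.1 - p.1| := abs_sub_le _ _ _
        linarith
      have i2 : |t - p''.1| ≤ d / 4 := by linarith
      rw [h16 t i1, h26 t i2, ← TT_sub G M p p' p.1 t, ← TT_sub G M p' p'' p''.1 t]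
      ring

end Pool.Agent.H12R3
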