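import Pool.Agent.H12R3.Tree

set_option autoImplicit false

open Set Filter Topology MeasureTheory

namespace Pool.Agent.H12R3

/-- Minimisers of `G y - m y` on `[-1, 1]`. -/
def AA (G : ℝ → ℝ) (m : ℝ) : Set ℝ :=
  {z | z ∈ Icc (-1 : ℝ) 1 ∧ ∀ y ∈ Icc (-1 : ℝ) 1, G z - m * z ≤ G y - m * y}

theorem AA_nonempty (G : ℝ → ℝ) (hG : Continuous G) (m : ℝ) : (AA G m).Nonempty := by
  have hc : ContinuousOn (fun y => G y - m * y) (Icc (-1 : ℝ) 1) := by fun_prop
  obtain ⟨z, hz, hz'⟩ := isCompact_Icc.exists_isMinOn (nonempty_Icc.2 (by norm_num)) hc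
  exact ⟨z, hz, fun y hy => hz' hy⟩

theorem AA_compact (G : ℝ → ℝ) (hG : Continuous G) (m : ℝ) : IsCompact (AA G m) := by
  have h : AA G m = Icc (-1 : ℝ) 1 ∩ ⋂ y ∈ Icc (-1 : ℝ) 1, {z | G z - m * z ≤ G y - m * y} := by
    ext z
    simp [AA]
  rw [h]
  apply isCompact_Icc.inter_right
  apply isClosed_biInter
  intro y _
  exact isClosed_le (by fun_prop) (by fun_prop)

theorem AA_deriv (G : ℝ → ℝ) (hd : Differentiable ℝ G) (h1 : G 0 + 1 < G 1)
    (h2 : G 0 + 1 < G (-1)) (m : ℝ) (hm : |m| ≤ 1) (z : ℝ) (hz : z ∈ AA G m) :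
    deriv G z = m := by
  obtain ⟨hm1, hm2⟩ := abs_le.1 hm
  obtain ⟨hz1, hz2⟩ := hz
  have h0 := hz2 0 ⟨by norm_num, by norm_num⟩
  have n1 : z ≠ 1 := by
    rintro rfl
    linarith
  have n2 : z ≠ -1 := by
    rintro rfl
    linarith
  have hzi : z ∈ Ioo (-1 : ℝ) 1 := ⟨lt_of_le_of_ne hz1.1 n2.symm, lt_of_le_of_ne hz1.2 n1⟩
  have hloc : IsLocalMin (fun y => G y - m * y) z := by
    filter_upwards [Ioo_mem_nhds hzi.1 hzi.2] with y hy
    exact hz2 y ⟨hy.1.le, hy.2.le⟩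
  have hder : HasDerivAt (fun y => G y - m * y) (deriv G z - m * 1) z :=
    (hd z).hasDerivAt.sub ((hasDerivAt_id z).const_mul m)
  have := hloc.hasDerivAt_eq_zero hder
  linarith

theorem AA_le (G : ℝ → ℝ) (m m' : ℝ) (hmm : m < m') (z z' : ℝ) (hz : z ∈ AA G m)
    (hz' : z' ∈ AA G m') : z ≤ z' := by
  have h1 := hz.2 z' hz'.1
  have h2 := hz'.2 z hz.1
  nlinarith

theorem AA_lt (G : ℝ → ℝ) (hd : Differentiable ℝ G) (h1 : G 0 + 1 < G 1)
    (h2 : G 0 + 1 < G (-1)) (m m' : ℝ) (hmm : m < m') (hm : |m| ≤ 1) (hm' : |m'| ≤ 1)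
    (z z' : ℝ) (hz : z ∈ AA G m) (hz' : z' ∈ AA G m') : z < z' := by
  refine lt_of_le_of_ne (AA_le G m m' hmm z z' hz hz') ?_
  rintro rfl
  have e1 := AA_deriv G hd h1 h2 m hm z hz
  have e2 := AA_deriv G hd h1 h2 m' hm' z hz'
  linarith

theorem AA_right (G : ℝ → ℝ) (hG : Continuous G) (m x : ℝ) (hx : IsGreatest (AA G m) x)
    (ε : ℝ) (hε : 0 < ε) :
    ∃ η : ℝ, 0 < η ∧ ∀ m', m < m' → m' < m + η → ∀ z ∈ AA G m', x ≤ z ∧ z < x + ε := by
  by_cases h : x + ε ≤ 1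
  · have hc : ContinuousOn (fun y => G y - m * y) (Icc (x + ε) 1) := by fun_prop
    obtain ⟨y0, hy0, hmin⟩ := isCompact_Icc.exists_isMinOn (nonempty_Icc.2 h) hc
    have hx1 := hx.1.1
    have hy1 : y0 ∈ Icc (-1 : ℝ) 1 := ⟨by linarith [hy0.1, hx1.1], hy0.2⟩
    have hκ : G x - m * x < G y0 - m * y0 := by
      by_contra hcon
      push Not at hcon
      have : y0 ∈ AA G m := ⟨hy1, fun y hy => le_trans hcon (hx.1.2 y hy)⟩
      have := hx.2 this
      linarith [hy0.1]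
    refine ⟨((G y0 - m * y0) - (G x - m * x)) / 2, by linarith, ?_⟩
    intro m' hm1 hm2 z hz
    refine ⟨AA_le G m m' hm1 x z hx.1 hz, ?_⟩
    by_contra hcon
    push Not at hcon
    have e1 : G y0 - m * y0 ≤ G z - m * z := hmin ⟨hcon, hz.1.2⟩
    have e2 := hz.2 x hx1
    have e3 : z ≤ 1 := hz.1.2
    have e4 : -1 ≤ x := hx1.1
    nlinarith
  · push Not at h
    refine ⟨1, one_pos, ?_⟩
    intro m' hm1 _ z hz
    exact ⟨AA_le G m m' hm1 x z hx.1 hz, by linarith [hz.1.2]⟩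

theorem AA_neg (G : ℝ → ℝ) (m z : ℝ) : z ∈ AA G m ↔ -z ∈ AA (fun x => G (-x)) (-m) := by
  simp only [AA, mem_ofPred_eq, mem_Icc, neg_neg]
  constructor
  · rintro ⟨⟨h1, h2⟩, h3⟩
    refine ⟨⟨by linarith, by linarith⟩, ?_⟩
    rintro y ⟨hy1, hy2⟩
    have := h3 (-y) ⟨by linarith, by linarith⟩
    linarith
  · rintro ⟨⟨h1, h2⟩, h3⟩
    refine ⟨⟨by linarith, by linarith⟩, ?_⟩
    rintro y ⟨hy1, hy2⟩
    have := h3 (-y) ⟨by linarith, by linarith⟩
    rw [neg_neg] at this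
    linarith

theorem AA_left (G : ℝ → ℝ) (hG : Continuous G) (m x : ℝ) (hx : IsLeast (AA G m) x)
    (ε : ℝ) (hε : 0 < ε) :
    ∃ η : ℝ, 0 < η ∧ ∀ m', m - η < m' → m' < m → ∀ z ∈ AA G m', x - ε < z ∧ z ≤ x := by
  have hx' : IsGreatest (AA (fun x => G (-x)) (-m)) (-x) := by
    refine ⟨(AA_neg G m x).1 hx.1, ?_⟩
    intro y hy
    have : -y ∈ AA G m := (AA_neg G m (-y)).2 (by rwa [neg_neg])
    have := hx.2 this
    linarith
  obtain ⟨η, hη, h⟩ := AA_right (fun x => G (-x)) (by fun_prop) (-m) (-x) hx' ε hε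
  refine ⟨η, hη, ?_⟩
  intro m' h1 h2 z hz
  have := h (-m') (by linarith) (by linarith) (-z) ((AA_neg G m' z).1 hz)
  exact ⟨by linarith [this.2], by linarith [this.1]⟩

/-- Case 1: slopes with nondegenerate contact sets are dense. -/
theorem case1 (G : ℝ → ℝ) (hd : Differentiable ℝ G) (h1 : G 0 + 1 < G 1)
    (h2 : G 0 + 1 < G (-1))
    (H : ∀ a b : ℝ, -1 ≤ a → a < b → b ≤ 1 → ∃ m, a < m ∧ m < b ∧ ∃ z ∈ AA G m, ∃ z' ∈ AA G m,
      z < z') :
    ∃ S : Set (ℝ × ℝ), S.Nonempty ∧ Splits G (deriv G) S := by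
  have hG : Continuous G := hd.continuous
  refine ⟨{p | (∃ m, -1 < m ∧ m < 1 ∧ (IsLeast (AA G m) p.1 ∨ IsGreatest (AA G m) p.1)) ∧
    p.2 = 0}, ?_, ?_⟩
  · obtain ⟨x, hx⟩ := (AA_compact G hG 0).exists_isLeast (AA_nonempty G hG 0)
    exact ⟨(x, 0), ⟨0, by norm_num, by norm_num, Or.inl hx⟩, rfl⟩
  · -- common end of the argument
    have key : ∀ (x : ℝ) (m : ℝ) (ε : ℝ), deriv G x = m → ∀ m', -1 < m' → m' < 1 →
        |m' - m| < ε → (∀ z ∈ AA G m', |z - x| < ε) → (∃ z ∈ AA G m', ∃ z' ∈ AA G m', z < z') →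
        0 < ε →
        ∃ p' ∈ {p : ℝ × ℝ | (∃ m, -1 < m ∧ m < 1 ∧
          (IsLeast (AA G m) p.1 ∨ IsGreatest (AA G m) p.1)) ∧ p.2 = 0},
        ∃ p'' ∈ {p : ℝ × ℝ | (∃ m, -1 < m ∧ m < 1 ∧
          (IsLeast (AA G m) p.1 ∨ IsGreatest (AA G m) p.1)) ∧ p.2 = 0},
          p'.1 ≠ p''.1 ∧
          |p'.1 - x| < ε ∧ |p''.1 - x| < ε ∧
          |deriv G p'.1 - deriv G x| < ε ∧ |deriv G p''.1 - deriv G x| < ε ∧
          |p'.2 - 0| < ε ∧ |p''.2 - 0| < ε ∧
          |deriv G p''.1 - deriv G p'.1 - p'.2 * (p''.1 - p'.1)| ≤ ε * |p''.1 - p'.1| ∧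
          |G p''.1 - G p'.1 - deriv G p'.1 * (p''.1 - p'.1) - p'.2 * (p''.1 - p'.1) ^ 2 / 2| ≤
            ε * |p''.1 - p'.1| ^ 2 := by
      intro x m ε hxm m' hm1 hm2 hmm hzx hex hε
      obtain ⟨z, hz, z', hz', hlt⟩ := hex
      obtain ⟨p, hp⟩ := (AA_compact G hG m').exists_isLeast (AA_nonempty G hG m')
      obtain ⟨q, hq⟩ := (AA_compact G hG m').exists_isGreatest (AA_nonempty G hG m')
      have hpq : p < q := lt_of_le_of_lt (hp.2 hz) (lt_of_lt_of_le hlt (hq.2 hz'))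
      have hmabs : |m'| ≤ 1 := abs_le.2 ⟨hm1.le, hm2.le⟩
      have dp := AA_deriv G hd h1 h2 m' hmabs p hp.1
      have dq := AA_deriv G hd h1 h2 m' hmabs q hq.1
      refine ⟨(p, 0), ⟨⟨m', hm1, hm2, Or.inl hp⟩, rfl⟩, (q, 0), ⟨⟨m', hm1, hm2, Or.inr hq⟩, rfl⟩,
        hpq.ne, hzx p hp.1, hzx q hq.1, ?_, ?_, ?_, ?_, ?_, ?_⟩
      · simp only [dp, hxm]; exact hmm
      · simp only [dq, hxm]; exact hmm
      · simpa using hε
      · simpa using hε
      · simp only [dp, dq]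
        have : m' - m' - 0 * (q - p) = 0 := by ring
        rw [this, abs_zero]
        positivity
      · simp only [dp]
        have e1 := hp.1.2 q hq.1.1
        have e2 := hq.1.2 p hp.1.1
        have : G q - G p - m' * (q - p) - 0 * (q - p) ^ 2 / 2 = 0 := by linarith
        rw [this, abs_zero]
        positivity
    rintro ⟨x, l⟩ ⟨⟨m, hm1, hm2, hx⟩, hl⟩ ε hε
    simp only at hl hx
    subst hl
    have hmabs : |m| ≤ 1 := abs_le.2 ⟨hm1.le, hm2.le⟩
    rcases hx with hx | hx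
    · have dx := AA_deriv G hd h1 h2 m hmabs x hx.1
      obtain ⟨η, hη, hη'⟩ := AA_left G hG m x hx ε hε
      obtain ⟨m', a1, a2, hex⟩ := H (max (-1) (max (m - η) (m - ε))) m (le_max_left _ _)
        (by apply max_lt hm1; apply max_lt <;> linarith) hm2.le
      have b1 : -1 < m' := lt_of_le_of_lt (le_max_left _ _) a1
      have b2 : m - η < m' :=
        lt_of_le_of_lt (le_trans (le_max_left _ _) (le_max_right _ _)) a1
      have b3 : m - ε < m' :=
        lt_of_le_of_lt (le_trans (le_max_right _ _) (le_max_right _ _)) a1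
      refine key x m ε dx m' b1 (by linarith) (abs_lt.2 ⟨by linarith, by linarith⟩) ?_ hex hε
      intro z hz
      have := hη' m' b2 a2 z hz
      exact abs_lt.2 ⟨by linarith [this.1], by linarith [this.2]⟩
    · have dx := AA_deriv G hd h1 h2 m hmabs x hx.1
      obtain ⟨η, hη, hη'⟩ := AA_right G hG m x hx ε hε
      obtain ⟨m', a1, a2, hex⟩ := H m (min 1 (min (m + η) (m + ε))) hm1.le
        (by apply lt_min hm2; apply lt_min <;> linarith) (min_le_left _ _)
      have b1 : m' < 1 := lt_of_lt_of_le a2 (min_le_left _ _)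
      have b2 : m' < m + η :=
        lt_of_lt_of_le a2 (le_trans (min_le_right _ _) (min_le_left _ _))
      have b3 : m' < m + ε :=
        lt_of_lt_of_le a2 (le_trans (min_le_right _ _) (min_le_right _ _))
      refine key x m ε dx m' (by linarith) b1 (abs_lt.2 ⟨by linarith, by linarith⟩) ?_ hex hε
      intro z hz
      have := hη' m' a1 b2 z hz
      exact abs_lt.2 ⟨by linarith [this.1], by linarith [this.2]⟩

/-- Refinement to a set without isolated points in its graph. -/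
theorem exists_refine (f : ℝ → ℝ) (D : Set ℝ) (hD : ¬ D.Countable) :
    ∃ D0 ⊆ D, D0.Nonempty ∧ ∀ x ∈ D0, ∀ ε : ℝ, 0 < ε →
      ∃ y ∈ D0, y ≠ x ∧ |y - x| < ε ∧ |f y - f x| < ε := by
  let D0 : Set ℝ := {x | x ∈ D ∧ ∀ ε : ℝ, 0 < ε →
    ¬ {y | y ∈ D ∧ |y - x| < ε ∧ |f y - f x| < ε}.Countable}
  let R : ℚ × ℚ × ℚ × ℚ → Set ℝ := fun r =>
    {y | y ∈ D ∧ (r.1 : ℝ) < y ∧ y < (r.2.1 : ℝ) ∧ (r.2.2.1 : ℝ) < f y ∧ f y < (r.2.2.2 : ℝ)}
  have hbad : (D \ D0).Countable := by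
    have hsub : D \ D0 ⊆ ⋃ r ∈ {r | (R r).Countable}, R r := by
      rintro x ⟨hxD, hx0⟩
      have : ∃ ε : ℝ, 0 < ε ∧ {y | y ∈ D ∧ |y - x| < ε ∧ |f y - f x| < ε}.Countable := by
        by_contra hcon
        push Not at hcon
        exact hx0 ⟨hxD, fun ε hε => hcon ε hε⟩
      obtain ⟨ε, hε, hc⟩ := this
      obtain ⟨a, ha1, ha2⟩ := exists_rat_btwn (show x - ε < x by linarith)
      obtain ⟨b, hb1, hb2⟩ := exists_rat_btwn (show x < x + ε by linarith)
      obtain ⟨c, hc1, hc2⟩ := exists_rat_btwn (show f x - ε < f x by linarith)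
      obtain ⟨d, hd1, hd2⟩ := exists_rat_btwn (show f x < f x + ε by linarith)
      refine mem_biUnion (x := (a, b, c, d)) ?_ ⟨hxD, ha2, hb1, hc2, hd1⟩
      apply hc.mono
      rintro y ⟨hyD, y1, y2, y3, y4⟩
      simp only at y1 y2 y3 y4
      exact ⟨hyD, abs_lt.2 ⟨by linarith, by linarith⟩, abs_lt.2 ⟨by linarith, by linarith⟩⟩
    have hcu : (⋃ r ∈ {r | (R r).Countable}, R r).Countable :=
      (to_countable {r | (R r).Countable}).biUnion (fun r hr => hr)
    exact hcu.mono hsub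
  refine ⟨D0, fun x hx => hx.1, ?_, ?_⟩
  · by_contra hcon
    rw [not_nonempty_iff_eq_empty] at hcon
    rw [hcon, sdiff_empty] at hbad
    exact hD hbad
  · intro x hx ε hε
    by_contra hcon
    push Not at hcon
    apply hx.2 ε hε
    apply ((hbad.union (countable_singleton x))).mono
    rintro y ⟨hyD, y1, y2⟩
    by_cases hy0 : y ∈ D0
    · by_cases hyx : y = x
      · right; exact hyx
      · exact absurd y2 (not_lt.2 (hcon y hy0 hyx y1))
    · left; exact ⟨hyD, hy0⟩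

/-- Case 2: an interval of slopes with one-point contact sets. -/
theorem case2 (G : ℝ → ℝ) (hd : Differentiable ℝ G) (h1 : G 0 + 1 < G 1)
    (h2 : G 0 + 1 < G (-1)) (a b : ℝ) (ha : -1 ≤ a) (hab : a < b) (hb : b ≤ 1)
    (H : ∀ m, a < m → m < b → ∀ z ∈ AA G m, ∀ z' ∈ AA G m, z ≤ z') :
    ∃ S : Set (ℝ × ℝ), S.Nonempty ∧ Splits G (deriv G) S := by
  have hG : Continuous G := hd.continuous
  choose ζ hζ using fun m => AA_nonempty G hG m
  have hcont : ∀ m, a < m → m < b → ContinuousAt ζ m := by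
    intro m hm1 hm2
    have hl : IsLeast (AA G m) (ζ m) := ⟨hζ m, fun z hz => H m hm1 hm2 _ (hζ m) z hz⟩
    have hg : IsGreatest (AA G m) (ζ m) := ⟨hζ m, fun z hz => H m hm1 hm2 z hz _ (hζ m)⟩
    rw [Metric.continuousAt_iff]
    intro ε hε
    obtain ⟨η1, hη1, k1⟩ := AA_right G hG m _ hg ε hε
    obtain ⟨η2, hη2, k2⟩ := AA_left G hG m _ hl ε hε
    refine ⟨min η1 η2, lt_min hη1 hη2, ?_⟩
    intro m' hm'
    rw [Real.dist_eq] at hm' ⊢
    obtain ⟨c1, c2⟩ := abs_lt.1 hm'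
    have c3 := min_le_left η1 η2
    have c4 := min_le_right η1 η2
    rcases lt_trichotomy m' m with hlt | heq | hgt
    · have := k2 m' (by linarith) hlt (ζ m') (hζ m')
      exact abs_lt.2 ⟨by linarith [this.1], by linarith [this.2]⟩
    · rw [heq, sub_self, abs_zero]; exact hε
    · have := k1 m' hgt (by linarith) (ζ m') (hζ m')
      exact abs_lt.2 ⟨by linarith [this.1], by linarith [this.2]⟩
  obtain ⟨a', ha1, ha2⟩ := exists_between hab
  obtain ⟨b', hb1, hb2⟩ := exists_between ha2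
  have hder : ∀ m, a < m → m < b → deriv G (ζ m) = m := fun m hm1 hm2 =>
    AA_deriv G hd h1 h2 m (abs_le.2 ⟨by linarith, by linarith⟩) _ (hζ m)
  have hαβ : ζ a' < ζ b' := AA_lt G hd h1 h2 a' b' hb1 (abs_le.2 ⟨by linarith, by linarith⟩)
    (abs_le.2 ⟨by linarith, by linarith⟩) _ _ (hζ a') (hζ b')
  have hivt : Icc (ζ a') (ζ b') ⊆ ζ '' Icc a' b' := by
    apply intermediate_value_Icc hb1.le
    intro m hm
    exact (hcont m (by linarith [hm.1]) (by linarith [hm.2])).continuousWithinAt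
  have hmono : MonotoneOn (deriv G) (Ioo (ζ a') (ζ b')) := by
    intro x hx y hy hxy
    obtain ⟨m, hm, rfl⟩ := hivt ⟨hx.1.le, hx.2.le⟩
    obtain ⟨m', hm', rfl⟩ := hivt ⟨hy.1.le, hy.2.le⟩
    rw [hder m (by linarith [hm.1]) (by linarith [hm.2]),
      hder m' (by linarith [hm'.1]) (by linarith [hm'.2])]
    by_contra hcon
    push Not at hcon
    have := AA_lt G hd h1 h2 m' m hcon (abs_le.2 ⟨by linarith [hm'.1], by linarith [hm'.2]⟩)
      (abs_le.2 ⟨by linarith [hm.1], by linarith [hm.2]⟩) _ _ (hζ m') (hζ m)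
    linarith
  have hae := hmono.ae_differentiableWithinAt_of_mem
  let D : Set ℝ := {x | x ∈ Ioo (ζ a') (ζ b') ∧ DifferentiableAt ℝ (deriv G) x}
  have hD : ¬ D.Countable := by
    intro hc
    have h0 : volume D = 0 := hc.measure_zero _
    have h3 : volume (Ioo (ζ a') (ζ b')) = 0 := by
      have hae2 : ∀ᵐ x, x ∉ D := by
        rw [ae_iff]
        simpa using h0
      have : ∀ᵐ x, x ∉ Ioo (ζ a') (ζ b') := by
        filter_upwards [hae, hae2] with x hx1 hx2 hx3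
        exact hx2 ⟨hx3, (hx1 hx3).differentiableAt (Ioo_mem_nhds hx3.1 hx3.2)⟩
      rw [ae_iff] at this
      simp only [not_not] at this
      exact this
    rw [Real.volume_Ioo, ENNReal.ofReal_eq_zero] at h3
    linarith
  obtain ⟨D0, hD0, ⟨x0, hx0⟩, hpairs⟩ := exists_refine (deriv (deriv G)) D hD
  refine ⟨{p | p.1 ∈ D0 ∧ p.2 = deriv (deriv G) p.1}, ⟨(x0, deriv (deriv G) x0), hx0, rfl⟩, ?_⟩
  rintro ⟨x, l⟩ ⟨hx, hl⟩ ε hε
  simp only at hx hl
  subst hl
  have hdx : DifferentiableAt ℝ (deriv G) x := (hD0 hx).2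
  -- first order expansion of `deriv G`
  have hlit := (hasDerivAt_iff_isLittleO.1 hdx.hasDerivAt).def hε
  obtain ⟨η, hη, hη'⟩ := Metric.eventually_nhds_iff.1 hlit
  obtain ⟨η2, hη2, hη2'⟩ := Metric.continuousAt_iff.1 hdx.continuousAt ε hε
  obtain ⟨y, hy, hyx, y1, y2⟩ := hpairs x hx (min ε (min η η2)) (by positivity)
  have y3 : |y - x| < ε := lt_of_lt_of_le y1 (min_le_left _ _)
  have y4 : |y - x| < η := lt_of_lt_of_le y1 (le_trans (min_le_right _ _) (min_le_left _ _))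
  have y5 : |y - x| < η2 := lt_of_lt_of_le y1 (le_trans (min_le_right _ _) (min_le_right _ _))
  have y6 : |deriv (deriv G) y - deriv (deriv G) x| < ε := lt_of_lt_of_le y2 (min_le_left _ _)
  have hexp : ∀ t, |t - x| ≤ |y - x| →
      |deriv G t - deriv G x - deriv (deriv G) x * (t - x)| ≤ ε * |t - x| := by
    intro t ht
    have := hη' (y := t) (by rw [Real.dist_eq]; linarith)
    simp only [Real.norm_eq_abs, smul_eq_mul] at this
    rwa [mul_comm (t - x)] at this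
  refine ⟨(x, deriv (deriv G) x), ⟨hx, rfl⟩, (y, deriv (deriv G) y), ⟨hy, rfl⟩, hyx.symm,
    ?_, y3, ?_, ?_, ?_, y6, ?_, ?_⟩
  · simpa using hε
  · simpa using hε
  · have := hη2' (x := y) (by rw [Real.dist_eq]; exact y5)
    rwa [Real.dist_eq] at this
  · simpa using hε
  · exact hexp y le_rfl
  · -- mean value inequality
    have hφ : ∀ t ∈ Metric.closedBall x |y - x|,
        HasDerivWithinAt (fun t => G t - deriv G x * (t - x) -
          deriv (deriv G) x * (t - x) ^ 2 / 2)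
          (deriv G t - deriv G x - deriv (deriv G) x * (t - x)) (Metric.closedBall x |y - x|) t := by
      intro t _
      apply HasDerivAt.hasDerivWithinAt
      have e1 : HasDerivAt (fun t : ℝ => t - x) 1 t := (hasDerivAt_id t).sub_const _
      have e2 := (hd t).hasDerivAt.sub (e1.const_mul (deriv G x))
      have e3 := ((e1.pow 2).const_mul (deriv (deriv G) x)).div_const 2
      have e4 := e2.sub e3
      have e5 : deriv G t - deriv G x - deriv (deriv G) x * (t - x) =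
        deriv G t - deriv G x * 1 -
          deriv (deriv G) x * (((2 : ℕ) : ℝ) * (t - x) ^ (2 - 1) * 1) / 2 := by
        norm_num; ring
      rw [e5]
      exact e4
    have hbd : ∀ t ∈ Metric.closedBall x |y - x|,
        ‖deriv G t - deriv G x - deriv (deriv G) x * (t - x)‖ ≤ ε * |y - x| := by
      intro t ht
      rw [Metric.mem_closedBall, Real.dist_eq] at ht
      rw [Real.norm_eq_abs]
      refine le_trans (hexp t ht) ?_
      gcongr
    have hmv := Convex.norm_image_sub_le_of_norm_hasDerivWithin_le hφ hbd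
      (convex_closedBall x |y - x|) (Metric.mem_closedBall_self (abs_nonneg _))
      (show y ∈ Metric.closedBall x |y - x| by rw [Metric.mem_closedBall, Real.dist_eq])
    simp only [Real.norm_eq_abs, sub_self] at hmv
    have e6 : G y - deriv G x * (y - x) - deriv (deriv G) x * (y - x) ^ 2 / 2 -
      (G x - deriv G x * 0 - deriv (deriv G) x * 0 ^ 2 / 2) =
      G y - G x - deriv G x * (y - x) - deriv (deriv G) x * (y - x) ^ 2 / 2 := by ring
    rw [e6] at hmv
    show |G y - G x - deriv G x * (y - x) - deriv (deriv G) x * (y - x) ^ 2 / 2| ≤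
      ε * |y - x| ^ 2
    calc _ ≤ ε * |y - x| * |y - x| := hmv
      _ = ε * |y - x| ^ 2 := by ring

theorem main_result (g : ℝ → ℝ) (hg : Differentiable ℝ g) :
    ∃ f : ℝ → ℝ, Differentiable ℝ f ∧ Differentiable ℝ (deriv f) ∧
      ¬ Set.Countable {x : ℝ | f x = g x} := by
  set K : ℝ := |g 0 - g 1| + |g 0 - g (-1)| + 2 with hK
  let G : ℝ → ℝ := fun x => g x + K * x ^ 2
  have hd : Differentiable ℝ G := hg.add ((differentiable_id.pow 2).const_mul K)
  have h1 : G 0 + 1 < G 1 := by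
    simp only [G, hK]
    have := le_abs_self (g 0 - g 1)
    have := abs_nonneg (g 0 - g (-1))
    norm_num
    linarith
  have h2 : G 0 + 1 < G (-1) := by
    simp only [G, hK]
    have := le_abs_self (g 0 - g (-1))
    have := abs_nonneg (g 0 - g 1)
    norm_num
    linarith
  have hS : ∃ S : Set (ℝ × ℝ), S.Nonempty ∧ Splits G (deriv G) S := by
    by_cases H : ∀ a b : ℝ, -1 ≤ a → a < b → b ≤ 1 → ∃ m, a < m ∧ m < b ∧
        ∃ z ∈ AA G m, ∃ z' ∈ AA G m, z < z'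
    · exact case1 G hd h1 h2 H
    · push Not at H
      obtain ⟨a, b, ha, hab, hb, H⟩ := H
      exact case2 G hd h1 h2 a b ha hab hb (fun m hm1 hm2 z hz z' hz' => H m hm1 hm2 z' hz' z hz)
  obtain ⟨S, hne, hS⟩ := hS
  obtain ⟨f, f', f'', hf, hf', hc⟩ := scheme G (deriv G) hd.continuous S hS hne
  have dq : ∀ t : ℝ, HasDerivAt (fun t : ℝ => K * t ^ 2) (2 * K * t) t := by
    intro t
    have e1 := ((hasDerivAt_id t).pow 2).const_mul K
    have e2 : 2 * K * t = K * (((2 : ℕ) : ℝ) * t ^ (2 - 1) * 1) := by norm_num; ring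
    rw [e2]
    exact e1
  have dF : ∀ t, HasDerivAt (fun t => f t - K * t ^ 2) (f' t - 2 * K * t) t := fun t =>
    (hf t).sub (dq t)
  have dF' : ∀ t, HasDerivAt (fun t => f' t - 2 * K * t) (f'' t - 2 * K * 1) t := fun t =>
    (hf' t).sub ((hasDerivAt_id t).const_mul (2 * K))
  refine ⟨fun t => f t - K * t ^ 2, fun t => (dF t).differentiableAt, ?_, ?_⟩
  · have : deriv (fun t => f t - K * t ^ 2) = fun t => f' t - 2 * K * t := by
      funext t
      exact (dF t).deriv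
    rw [this]
    exact fun t => (dF' t).differentiableAt
  · have : {x : ℝ | f x - K * x ^ 2 = g x} = {x : ℝ | f x = G x} := by
      ext x
      simp only [mem_ofPred_eq, G]
      constructor <;> intro h <;> linarith
    rw [this]
    exact hc

end Pool.Agent.H12R3
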