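import Pool.Agent.H12R3.Step

set_option autoImplicit false

open Set Filter Topology

namespace Pool.Agent.H12R3

/-- Nodes of the scheme: a point of `S` and a radius. -/
def Node (S : Set (ℝ × ℝ)) : Type := {v : (ℝ × ℝ) × ℝ // v.1 ∈ S ∧ 0 < v.2 ∧ v.2 ≤ 1}

/-- The `n`-th initial segment of a branch. -/
def br (β : ℕ → Bool) : ℕ → List Bool
  | 0 => []
  | (n + 1) => β n :: br β n

theorem br_length (β : ℕ → Bool) (n : ℕ) : (br β n).length = n := by
  induction n with
  | zero => rfl
  | succ n ih => simp [br, ih]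

theorem br_injective (β : ℕ → Bool) : Function.Injective (br β) := by
  intro m n h
  have := congrArg List.length h
  rwa [br_length, br_length] at this

theorem br_eq (β β' : ℕ → Bool) (h : ∀ n, br β n = br β' n) : β = β' := by
  funext n
  have := h (n + 1)
  simp only [br, List.cons.injEq] at this
  exact this.1

/-- **Scheme lemma.** -/
theorem scheme (G M : ℝ → ℝ) (hG : Continuous G) (S : Set (ℝ × ℝ)) (hS : Splits G M S)
    (hne : S.Nonempty) :
    ∃ f f' f'' : ℝ → ℝ, (∀ t, HasDerivAt f (f' t) t) ∧ (∀ t, HasDerivAt f' (f'' t) t) ∧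
      ¬ Set.Countable {x : ℝ | f x = G x} := by
  classical
  -- the splitting function on nodes
  have hstep : ∀ (v : Node S) (n : ℕ), ∃ (q : Bool → Node S) (w w' w'' : ℝ → ℝ),
      (∀ b, |(q b).1.1.1 - v.1.1.1| + 2 * (q b).1.2 ≤ v.1.2) ∧
      (2 * (q false).1.2 + 2 * (q true).1.2 < |(q true).1.1.1 - (q false).1.1.1|) ∧
      (∀ b, (|M (q b).1.1.1| + |(q b).1.1.2| + 1) * (q b).1.2 ≤ (1 / 2) ^ n) ∧
      (∀ t, HasDerivAt w (w' t) t) ∧ (∀ t, HasDerivAt w' (w'' t) t) ∧
      (∀ t, |w t| ≤ (1 / 2) ^ n) ∧ (∀ t, |w' t| ≤ (1 / 2) ^ n) ∧ (∀ t, |w'' t| ≤ (1 / 2) ^ n) ∧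
      (∀ t, 2 * v.1.2 ≤ |t - v.1.1.1| → w t = 0) ∧
      (∀ b t, |t - (q b).1.1.1| ≤ (q b).1.2 → w t = TT G M (q b).1.1 t - TT G M v.1.1 t) := by
    intro v n
    obtain ⟨q, σ, w, w', w'', h1, h2, h3, h4, h5, h6, h7, h8, h9, h10, h11, h12, h13⟩ :=
      step G M hG S hS v.1.1 v.2.1 v.1.2 v.2.2.1 v.2.2.2 ((1 / 2) ^ n) (by positivity)
    exact ⟨fun b => ⟨(q b, σ b), h1 b, h2 b, h3 b⟩, w, w', w'', h4, h5, h6, h7, h8, h9, h10, h11,
      h12, h13⟩
  choose q w w' w'' h4 h5 h6 h7 h8 h9 h10 h11 h12 h13 using hstep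
  obtain ⟨p0, hp0⟩ := hne
  let root : Node S := ⟨(p0, 1), hp0, one_pos, le_rfl⟩
  let tree : List Bool → Node S :=
    fun s => List.rec root (fun b s ih => q ih (Encodable.encode s) b) s
  have tree_cons : ∀ b s, tree (b :: s) = q (tree s) (Encodable.encode s) b := fun b s => rfl
  let U : List Bool → ℝ → ℝ := fun s => w (tree s) (Encodable.encode s)
  let U' : List Bool → ℝ → ℝ := fun s => w' (tree s) (Encodable.encode s)
  let U'' : List Bool → ℝ → ℝ := fun s => w'' (tree s) (Encodable.encode s)
  have hsum : Summable (fun s : List Bool => ((1 : ℝ) / 2) ^ (Encodable.encode s)) :=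
    summable_geometric_two_encode
  have hU : ∀ s t, HasDerivAt (U s) (U' s t) t := fun s t => h7 _ _ t
  have hU' : ∀ s t, HasDerivAt (U' s) (U'' s t) t := fun s t => h8 _ _ t
  have bU : ∀ s t, ‖U s t‖ ≤ ((1 : ℝ) / 2) ^ (Encodable.encode s) := fun s t => h9 _ _ t
  have bU' : ∀ s t, ‖U' s t‖ ≤ ((1 : ℝ) / 2) ^ (Encodable.encode s) := fun s t => h10 _ _ t
  have bU'' : ∀ s t, ‖U'' s t‖ ≤ ((1 : ℝ) / 2) ^ (Encodable.encode s) := fun s t => h11 _ _ t
  have sU : ∀ t, Summable (fun s => U s t) := fun t => Summable.of_norm_bounded hsum (fun s => bU s t)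
  have sU' : ∀ t, Summable (fun s => U' s t) :=
    fun t => Summable.of_norm_bounded hsum (fun s => bU' s t)
  have dU : ∀ t, HasDerivAt (fun t => ∑' s, U s t) (∑' s, U' s t) t := fun t =>
    hasDerivAt_tsum hsum hU bU' (sU 0) t
  have dU' : ∀ t, HasDerivAt (fun t => ∑' s, U' s t) (∑' s, U'' s t) t := fun t =>
    hasDerivAt_tsum hsum hU' bU'' (sU' 0) t
  have dT : ∀ t, HasDerivAt (TT G M p0) (M p0.1 + p0.2 * (t - p0.1)) t := by
    intro t
    have e1 : HasDerivAt (fun t : ℝ => t - p0.1) 1 t := (hasDerivAt_id t).sub_const _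
    have e2 := (e1.const_mul (M p0.1)).const_add (G p0.1)
    have e3 := ((e1.pow 2).const_mul p0.2).div_const 2
    have e4 := e2.add e3
    have e5 : M p0.1 + p0.2 * (t - p0.1) =
      M p0.1 * 1 + p0.2 * (((2 : ℕ) : ℝ) * (t - p0.1) ^ (2 - 1) * 1) / 2 := by
      norm_num; ring
    rw [e5]
    exact e4
  have dT' : ∀ t, HasDerivAt (fun t => M p0.1 + p0.2 * (t - p0.1)) p0.2 t := by
    intro t
    have e1 : HasDerivAt (fun t : ℝ => t - p0.1) 1 t := (hasDerivAt_id t).sub_const _
    have e2 := (e1.const_mul p0.2).const_add (M p0.1)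
    rw [mul_one] at e2
    exact e2
  refine ⟨fun t => TT G M p0 t + ∑' s, U s t, fun t => (M p0.1 + p0.2 * (t - p0.1)) + ∑' s, U' s t,
    fun t => p0.2 + ∑' s, U'' s t, fun t => (dT t).add (dU t), fun t => (dT' t).add (dU' t), ?_⟩
  -- branches
  have hnest : ∀ b s t, |t - (tree (b :: s)).1.1.1| < 2 * (tree (b :: s)).1.2 →
      |t - (tree s).1.1.1| < (tree s).1.2 := by
    intro b s t ht
    have h1 := h4 (tree s) (Encodable.encode s) b
    rw [← tree_cons] at h1
    have h2 : |t - (tree s).1.1.1| ≤ |t - (tree (b :: s)).1.1.1| +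
      |(tree (b :: s)).1.1.1 - (tree s).1.1.1| := abs_sub_le _ _ _
    linarith
  have hpos : ∀ s, 0 < (tree s).1.2 := fun s => (tree s).2.2.1
  have hdisj : ∀ s b b' t, |t - (tree (b :: s)).1.1.1| < 2 * (tree (b :: s)).1.2 →
      |t - (tree (b' :: s)).1.1.1| < 2 * (tree (b' :: s)).1.2 → b = b' := by
    intro s b b' t hb hb'
    have h1 := h5 (tree s) (Encodable.encode s)
    rw [← tree_cons, ← tree_cons] at h1
    cases b <;> cases b'
    · rfl
    · exfalso
      have h2 : |(tree (true :: s)).1.1.1 - (tree (false :: s)).1.1.1| ≤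
        |(tree (true :: s)).1.1.1 - t| + |t - (tree (false :: s)).1.1.1| := abs_sub_le _ _ _
      rw [abs_sub_comm (tree (true :: s)).1.1.1 t] at h2
      linarith
    · exfalso
      have h2 : |(tree (true :: s)).1.1.1 - (tree (false :: s)).1.1.1| ≤
        |(tree (true :: s)).1.1.1 - t| + |t - (tree (false :: s)).1.1.1| := abs_sub_le _ _ _
      rw [abs_sub_comm (tree (true :: s)).1.1.1 t] at h2
      linarith
    · rfl
  have hz : ∀ β : ℕ → Bool, ∃ z : ℝ, ∀ n, |z - (tree (br β n)).1.1.1| ≤ (tree (br β n)).1.2 := by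
    intro β
    let K : ℕ → Set ℝ := fun n => Metric.closedBall (tree (br β n)).1.1.1 (tree (br β n)).1.2
    have hK : (⋂ n, K n).Nonempty := by
      apply IsCompact.nonempty_iInter_of_sequence_nonempty_isCompact_isClosed
      · intro n t ht
        have ht' : |t - (tree (β n :: br β n)).1.1.1| ≤ (tree (β n :: br β n)).1.2 := by
          simpa [K, Real.dist_eq, br] using ht
        have h1 := hnest (β n) (br β n) t (by linarith [hpos (β n :: br β n)])
        simp only [K, Metric.mem_closedBall, Real.dist_eq]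
        exact h1.le
      · intro n
        exact ⟨_, Metric.mem_closedBall_self (hpos _).le⟩
      · exact isCompact_closedBall _ _
      · intro n
        exact Metric.isClosed_closedBall
    obtain ⟨z, hz⟩ := hK
    refine ⟨z, fun n => ?_⟩
    have := mem_iInter.1 hz n
    simpa [K, Real.dist_eq] using this
  choose z hz using hz
  have hz2 : ∀ β n, |z β - (tree (br β n)).1.1.1| < 2 * (tree (br β n)).1.2 := by
    intro β n
    have := hz β n
    linarith [hpos (br β n)]
  have huniq : ∀ β s, |z β - (tree s).1.1.1| < 2 * (tree s).1.2 → s = br β s.length := by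
    intro β s
    induction s with
    | nil => intro _; rfl
    | cons b s ih =>
      intro h
      have h1 := hnest b s (z β) h
      have h2 := ih (by linarith [hpos s])
      have h3 := hz2 β (s.length + 1)
      have h4 : br β (s.length + 1) = β s.length :: s := by
        show β s.length :: br β s.length = β s.length :: s
        rw [← h2]
      rw [h4] at h3
      have h5 := hdisj s b (β s.length) (z β) h h3
      rw [List.length_cons, h4, ← h5]
  have hinj : Function.Injective z := by
    intro β β' h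
    apply br_eq
    intro n
    have h1 := hz2 β n
    rw [h] at h1
    have h2 := huniq β' _ h1
    rwa [br_length] at h2
  have hmem : ∀ β, z β ∈ {x : ℝ | TT G M p0 x + ∑' s, U s x = G x} := by
    intro β
    have h0 : ∀ s, s ∉ range (br β) → U s (z β) = 0 := by
      intro s hs
      apply h12
      by_contra hcon
      push Not at hcon
      exact hs ⟨_, (huniq β s hcon).symm⟩
    have h1 : ∑' n, U (br β n) (z β) = ∑' s, U s (z β) := by
      exact (br_injective β).tsum_eq (f := fun s => U s (z β)) (by
        intro s hs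
        by_contra hcon
        exact hs (h0 s hcon))
    have h2 : Summable (fun n => U (br β n) (z β)) := (sU (z β)).comp_injective (br_injective β)
    have h3 := h2.hasSum.tendsto_sum_nat
    have h4 : ∀ N, ∑ n ∈ Finset.range N, U (br β n) (z β) =
        TT G M (tree (br β N)).1.1 (z β) - TT G M p0 (z β) := by
      intro N
      induction N with
      | zero =>
        have : tree (br β 0) = root := rfl
        rw [this]
        simp [root]
      | succ N ih =>
        rw [Finset.sum_range_succ, ih]
        have : U (br β N) (z β) = TT G M (tree (br β (N + 1))).1.1 (z β) -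
            TT G M (tree (br β N)).1.1 (z β) := by
          exact h13 (tree (br β N)) (Encodable.encode (br β N)) (β N) (z β) (hz β (N + 1))
        rw [this]
        ring
    have h5 : Tendsto (fun N => TT G M (tree (br β N)).1.1 (z β)) atTop (𝓝 (G (z β))) := by
      have e1 : Tendsto (fun N => ((1 : ℝ) / 2) ^ (Encodable.encode (br β N))) atTop (𝓝 0) :=
        (hsum.comp_injective (br_injective β)).tendsto_atTop_zero
      have e2 : ∀ N, (|M (tree (br β (N + 1))).1.1.1| + |(tree (br β (N + 1))).1.1.2| + 1) *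
          (tree (br β (N + 1))).1.2 ≤ ((1 : ℝ) / 2) ^ (Encodable.encode (br β N)) := fun N =>
        h6 (tree (br β N)) (Encodable.encode (br β N)) (β N)
      have e3 : Tendsto (fun N => (tree (br β (N + 1))).1.1.1) atTop (𝓝 (z β)) := by
        rw [tendsto_iff_dist_tendsto_zero]
        apply squeeze_zero (fun _ => dist_nonneg) _ e1
        intro N
        rw [dist_comm, Real.dist_eq]
        have a1 := hz β (N + 1)
        have a2 := e2 N
        have a3 : 0 ≤ (|M (tree (br β (N + 1))).1.1.1| + |(tree (br β (N + 1))).1.1.2|) *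
          (tree (br β (N + 1))).1.2 := mul_nonneg (by positivity) (hpos (br β (N + 1))).le
        linarith
      have e4 : Tendsto (fun N => G (tree (br β (N + 1))).1.1.1) atTop (𝓝 (G (z β))) :=
        (hG.tendsto _).comp e3
      have e5 : Tendsto (fun N => TT G M (tree (br β (N + 1))).1.1 (z β) -
          G (tree (br β (N + 1))).1.1.1) atTop (𝓝 0) := by
        rw [tendsto_zero_iff_abs_tendsto_zero]
        apply squeeze_zero (fun _ => abs_nonneg _) _ e1
        intro N
        refine le_trans ?_ (e2 N)
        have a1 := hz β (N + 1)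
        have a2 : (tree (br β (N + 1))).1.2 ≤ 1 := (tree (br β (N + 1))).2.2.2
        have a3 := hpos (br β (N + 1))
        generalize (tree (br β (N + 1))).1.1 = p at *
        generalize (tree (br β (N + 1))).1.2 = ρ at *
        have b1 : TT G M p (z β) - G p.1 = M p.1 * (z β - p.1) +
          p.2 * ((z β - p.1) * ((z β - p.1) / 2)) := by
          unfold TT; ring
        rw [b1]
        have b2 : |M p.1 * (z β - p.1)| ≤ |M p.1| * ρ := by
          rw [abs_mul]; gcongr
        have b3 : |p.2 * ((z β - p.1) * ((z β - p.1) / 2))| ≤ |p.2| * ρ := by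
          rw [abs_mul, abs_mul]
          have : |(z β - p.1) / 2| ≤ 1 := by
            rw [abs_div, abs_two]; linarith
          have : |z β - p.1| * |(z β - p.1) / 2| ≤ ρ * 1 :=
            mul_le_mul a1 this (abs_nonneg _) a3.le
          rw [mul_one] at this
          gcongr
        refine le_trans (abs_add_le _ _) ?_
        linarith
      have e6 := e5.add e4
      simp only [sub_add_cancel, zero_add] at e6
      exact (tendsto_add_atTop_iff_nat 1).1 e6
    have h6 : Tendsto (fun N => ∑ n ∈ Finset.range N, U (br β n) (z β)) atTop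
        (𝓝 (G (z β) - TT G M p0 (z β))) := by
      simp only [h4]
      exact h5.sub_const _
    have h7 := tendsto_nhds_unique h3 h6
    rw [h1] at h7
    show TT G M p0 (z β) + ∑' s, U s (z β) = G (z β)
    rw [h7]
    ring
  intro hcount
  have : (range z).Countable := hcount.mono (by rintro _ ⟨β, rfl⟩; exact hmem β)
  have hc : Countable (ℕ → Bool) := by
    have h1 : Countable (range z) := this.to_subtype
    exact (Equiv.ofInjective z hinj).countable_iff.2 h1
  have hset : Countable (Set ℕ) := by
    refine Function.Injective.countable (f := fun (A : Set ℕ) (n : ℕ) => decide (n ∈ A)) ?_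
    intro A B h
    ext n
    have := congrFun h n
    simpa using this
  obtain ⟨e, he⟩ := exists_surjective_nat (Set ℕ)
  exact Function.cantor_surjective e he

end Pool.Agent.H12R3
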